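import Mathlib

set_option autoImplicit false

namespace Pool.Agent.Helper84.Alt

/-! ### Characters -/

/-- The group ring of the root lattice of `sl₃`; the pair `(i, j)` is the weight `i α₁ + j α₂`.
The character of a finite-dimensional `PSL₃`-module lives here. -/
abbrev Lat : Type := AddMonoidAlgebra ℤ (ℤ × ℤ)

/-- The formal exponential `e^β`. -/
noncomputable def ex (β : ℤ × ℤ) : Lat := AddMonoidAlgebra.single β 1

/-- The character of the adjoint module `L(α₁ + α₂)`: the weight `0` twice and the six roots. -/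
noncomputable def adj : Lat :=
  2 + (ex (1, 0) + ex (0, 1) + ex (1, 1) + ex (-1, 0) + ex (0, -1) + ex (-1, -1))

/-- The multiplicity of `L(μ)` (`μ` dominant) in a virtual module with character `f`, by Weyl's
character formula: the coefficient of `e^μ` in `f · ∏_{α > 0} (1 - e^{-α})`. -/
noncomputable def mult (μ : ℤ × ℤ) (f : Lat) : ℤ :=
  (f * ((1 - ex (-1, 0)) * (1 - ex (0, -1)) * (1 - ex (-1, -1)))).coeff μ

theorem constCoeff_base {σ : Type} [DecidableEq σ] {α : σ →₀ ℕ} (h : α ≠ 0) (β : ℤ × ℤ) :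
    MvPowerSeries.constantCoeff (1 - MvPowerSeries.monomial α (ex β)) = ((1 : Latˣ) : Lat) := by
  rw [map_sub, map_one, ← MvPowerSeries.coeff_zero_eq_constantCoeff_apply,
    MvPowerSeries.coeff_monomial, if_neg (fun h' => h h'.symm)]
  simp

/-- The unit `1 - x^α e^β` of the ring of power series in the `x_i` over `Lat`, for `α ≠ 0`
(by convention it is `1` for `α = 0`). -/
noncomputable def fac {σ : Type} [DecidableEq σ] (α : σ →₀ ℕ) (β : ℤ × ℤ) :
    (MvPowerSeries σ Lat)ˣ :=
  if h : α = 0 then 1 else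
    { val := 1 - MvPowerSeries.monomial α (ex β)
      inv := MvPowerSeries.invOfUnit (1 - MvPowerSeries.monomial α (ex β)) 1
      val_inv := MvPowerSeries.mul_invOfUnit _ _ (constCoeff_base h β)
      inv_val := MvPowerSeries.invOfUnit_mul _ _ (constCoeff_base h β) }

/-- The operation `λ` on characters. If `X = ∑ c_{α,β} x^α e^β` (sum over `α ≠ 0` and `β`, with
integers `c_{α,β}`) then `λ(X) = ∏ (1 - x^α e^β)^{c_{α,β}}`. The coefficient of `x^γ` of this
infinite product is that of the finite subproduct over the `α ≤ γ`. -/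
noncomputable def lam {σ : Type} [DecidableEq σ] (X : MvPowerSeries σ Lat) :
    MvPowerSeries σ Lat := fun γ =>
  MvPowerSeries.coeff γ ((∏ α ∈ Finset.Iic γ,
    ∏ β ∈ (MvPowerSeries.coeff α X).coeff.support,
      fac α β ^ ((MvPowerSeries.coeff α X).coeff β) : (MvPowerSeries σ Lat)ˣ) :
        MvPowerSeries σ Lat)

/-- The character of `a [L(α₁ + α₂)] + b [L(0)]`. -/
noncomputable def comb {σ : Type} (a b : MvPowerSeries σ ℤ) : MvPowerSeries σ Lat := fun α =>
  MvPowerSeries.coeff α a • adj + MvPowerSeries.coeff α b • (1 : Lat)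

/-- `a` is (the character of) an element of `R₊`: symmetric with zero constant term. -/
def InRplus {d : ℕ} (a : MvPowerSeries (Fin d) ℤ) : Prop :=
  MvPowerSeries.constantCoeff a = 0 ∧
    ∀ (τ : Equiv.Perm (Fin d)) (α : Fin d →₀ ℕ),
      MvPowerSeries.coeff (α.mapDomain τ) a = MvPowerSeries.coeff α a

/-- `a, b ∈ R₊` and `Φ = λ(a [L(α₁ + α₂)] + b [L(0)])` satisfies
`[Φ : [L(0)]] = [𝕜]` and `[Φ : [L(α₁ + α₂)]] = -[V]`, where `V = 𝕜^d` has character
`x_1 + ... + x_d`. -/
def IsPair {d : ℕ} (a b : MvPowerSeries (Fin d) ℤ) : Prop :=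
  InRplus a ∧ InRplus b ∧
    (∀ γ : Fin d →₀ ℕ, mult (0, 0) (MvPowerSeries.coeff γ (lam (comb a b))) =
      MvPowerSeries.coeff γ (1 : MvPowerSeries (Fin d) ℤ)) ∧
    (∀ γ : Fin d →₀ ℕ, mult (1, 1) (MvPowerSeries.coeff γ (lam (comb a b))) =
      - MvPowerSeries.coeff γ (∑ i : Fin d, (MvPowerSeries.X i : MvPowerSeries (Fin d) ℤ)))

/-! ### The free alternative algebra -/

/-- The multidegree of a non-associative word. -/
noncomputable def content {d : ℕ} : FreeMagma (Fin d) → (Fin d →₀ ℕ)
  | .of i => Finsupp.single i 1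
  | .mul x y => content x + content y

/-- The two-sided ideal of the free non-associative algebra generated by the associators
`(a, a, b)` and `(b, a, a)`. -/
noncomputable def altIdeal (k : Type*) [Field k] (d : ℕ) :
    Submodule k (FreeNonUnitalNonAssocAlgebra k (Fin d)) :=
  sInf {I | (∀ a b, (a * a) * b - a * (a * b) ∈ I) ∧ (∀ a b, (b * a) * a - b * (a * a) ∈ I) ∧
    ∀ x ∈ I, ∀ y, x * y ∈ I ∧ y * x ∈ I}

/-- The weight space of weight `α` of the free alternative algebra `Alt(𝕜^d)`: the span of the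
images of the non-associative words of multidegree `α`. -/
noncomputable def altWeight (k : Type*) [Field k] (d : ℕ) (α : Fin d →₀ ℕ) :
    Submodule k (FreeNonUnitalNonAssocAlgebra k (Fin d) ⧸ altIdeal k d) :=
  Submodule.span k {x | ∃ w : FreeMagma (Fin d), content w = α ∧
    x = (altIdeal k d).mkQ (MonoidAlgebra.single w 1)}

/-- The character `[Alt(𝕜^d)]`. -/
noncomputable def altChar (k : Type*) [Field k] (d : ℕ) : MvPowerSeries (Fin d) ℤ := fun α =>
  (Module.finrank k (altWeight k d α) : ℤ)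

end Pool.Agent.Helper84.Alt
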