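import Pool.Agent.Helper84.AltLam

set_option autoImplicit false
set_option linter.unusedSectionVars false

namespace Pool.Agent.Helper84.Alt

open MvPowerSeries

/-! ### The multiplicity functionals -/

theorem coeff_mul_ex (f : Lat) (β μ : ℤ × ℤ) : (f * ex β).coeff μ = f.coeff (μ - β) := by
  have h := AddMonoidAlgebra.coeff_mul_single_apply f (1 : ℤ) β μ
  rw [ex, h, mul_one, sub_eq_add_neg]

theorem mult_eq (μ : ℤ × ℤ) (f : Lat) :
    mult μ f = f.coeff μ - f.coeff (μ + (1, 0)) - f.coeff (μ + (0, 1)) + f.coeff (μ + (2, 1))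
      + f.coeff (μ + (1, 2)) - f.coeff (μ + (2, 2)) := by
  have hex : ∀ β β' : ℤ × ℤ, ex β * ex β' = ex (β + β') := by
    intro β β'
    rw [ex, ex, ex, AddMonoidAlgebra.single_mul_single, one_mul]
  have e : f * ((1 - ex (-1, 0)) * (1 - ex (0, -1)) * (1 - ex (-1, -1))) =
      f - f * ex (-1, 0) - f * ex (0, -1) + f * ex (-2, -1) + f * ex (-1, -2)
        - f * ex (-2, -2) := by
    have e1 : (1 - ex (-1, 0)) * (1 - ex (0, -1)) * (1 - ex (-1, -1)) =
        1 - ex (-1, 0) - ex (0, -1) + ex (-1, 0) * ex (0, -1) - ex (-1, -1)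
          + ex (-1, 0) * ex (-1, -1) + ex (0, -1) * ex (-1, -1)
          - ex (-1, 0) * ex (0, -1) * ex (-1, -1) := by ring
    rw [e1, hex, hex, hex, hex]
    norm_num
    ring
  rw [mult, e]
  simp only [AddMonoidAlgebra.coeff_sub, AddMonoidAlgebra.coeff_add, Finsupp.coe_sub,
    Finsupp.coe_add, Pi.sub_apply, Pi.add_apply, coeff_mul_ex]
  obtain ⟨i, j⟩ := μ
  simp [Prod.mk_add_mk]

theorem mult_sub (μ : ℤ × ℤ) (f g : Lat) : mult μ (f - g) = mult μ f - mult μ g := by
  simp only [mult_eq, AddMonoidAlgebra.coeff_sub, Finsupp.coe_sub, Pi.sub_apply]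
  ring

theorem mult_add (μ : ℤ × ℤ) (f g : Lat) : mult μ (f + g) = mult μ f + mult μ g := by
  simp only [mult_eq, AddMonoidAlgebra.coeff_add, Finsupp.coe_add, Pi.add_apply]
  ring

theorem mult_zero (μ : ℤ × ℤ) : mult μ 0 = 0 := by
  simp [mult_eq]

theorem mult_smul (μ : ℤ × ℤ) (c : ℤ) (f : Lat) : mult μ (c • f) = c * mult μ f := by
  simp only [mult_eq, AddMonoidAlgebra.coeff_smul, Finsupp.coe_smul, Pi.smul_apply, smul_eq_mul]
  ring

theorem mult_neg (μ : ℤ × ℤ) (f : Lat) : mult μ (-f) = - mult μ f := by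
  have := mult_sub μ 0 f
  rw [zero_sub, mult_zero, zero_sub] at this
  exact this

theorem mult_sum {ι : Type*} (μ : ℤ × ℤ) (s : Finset ι) (f : ι → Lat) :
    mult μ (∑ i ∈ s, f i) = ∑ i ∈ s, mult μ (f i) := by
  classical
  induction s using Finset.induction_on with
  | empty => simp [mult_zero]
  | insert a s ha ih => rw [Finset.sum_insert ha, Finset.sum_insert ha, mult_add, ih]

theorem coeff_ex (β μ : ℤ × ℤ) : (ex β).coeff μ = if β = μ then 1 else 0 := by
  rw [ex, AddMonoidAlgebra.coeff_single, Finsupp.single_apply]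

theorem coeff_one' (μ : ℤ × ℤ) : (1 : Lat).coeff μ = if (0, 0) = μ then 1 else 0 := by
  rw [AddMonoidAlgebra.one_def, AddMonoidAlgebra.coeff_single, Finsupp.single_apply]
  rfl

theorem coeff_two (μ : ℤ × ℤ) : (2 : Lat).coeff μ = if (0, 0) = μ then 2 else 0 := by
  have : (2 : Lat) = 1 + 1 := by norm_num
  rw [this, AddMonoidAlgebra.coeff_add, Finsupp.add_apply, coeff_one']
  split_ifs <;> norm_num

theorem coeff_adj (μ : ℤ × ℤ) : adj.coeff μ = (if (0, 0) = μ then 2 else 0) +
    ((if (1, 0) = μ then 1 else 0) + (if (0, 1) = μ then 1 else 0) + (if (1, 1) = μ then 1 else 0)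
    + (if (-1, 0) = μ then 1 else 0) + (if (0, -1) = μ then 1 else 0)
    + (if (-1, -1) = μ then 1 else 0)) := by
  simp only [adj, AddMonoidAlgebra.coeff_add, Finsupp.coe_add, Pi.add_apply, coeff_ex, coeff_two]

theorem mult00_adj : mult (0, 0) adj = 0 := by
  simp only [mult_eq, coeff_adj]; decide

theorem mult11_adj : mult (1, 1) adj = 1 := by
  simp only [mult_eq, coeff_adj]; decide

theorem mult00_one : mult (0, 0) (1 : Lat) = 1 := by
  simp only [mult_eq, coeff_one']; decide

theorem mult11_one : mult (1, 1) (1 : Lat) = 0 := by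
  simp only [mult_eq, coeff_one']; decide

/-! ### Existence and uniqueness of the pair -/

variable {d : ℕ}

theorem coeff_comb {σ : Type} (a b : MvPowerSeries σ ℤ) (γ : σ →₀ ℕ) :
    coeff γ (comb a b) = coeff γ a • adj + coeff γ b • (1 : Lat) := rfl

/-- The element `G_γ` on which the recursion is based. -/
noncomputable def G (a b : MvPowerSeries (Fin d) ℤ) (γ : Fin d →₀ ℕ) : Lat :=
  coeff γ ((∏ α ∈ Finset.Iio γ, facL α (coeff α (comb a b)) : (MvPowerSeries (Fin d) Lat)ˣ) :
        MvPowerSeries (Fin d) Lat)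

/-- The class of `V`. -/
noncomputable def Vc (d : ℕ) : MvPowerSeries (Fin d) ℤ :=
  ∑ i : Fin d, (MvPowerSeries.X i : MvPowerSeries (Fin d) ℤ)

/-- The pair conditions without symmetry. -/
def IsPair0 (a b : MvPowerSeries (Fin d) ℤ) : Prop :=
  constantCoeff a = 0 ∧ constantCoeff b = 0 ∧
    (∀ γ : Fin d →₀ ℕ, mult (0, 0) (coeff γ (lam (comb a b))) =
      coeff γ (1 : MvPowerSeries (Fin d) ℤ)) ∧
    (∀ γ : Fin d →₀ ℕ, mult (1, 1) (coeff γ (lam (comb a b))) =
      - coeff γ (Vc d))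

/-- The recursion. -/
theorem isPair0_iff (a b : MvPowerSeries (Fin d) ℤ) : IsPair0 a b ↔
    (constantCoeff a = 0 ∧ constantCoeff b = 0 ∧ ∀ γ : Fin d →₀ ℕ, γ ≠ 0 →
      (coeff γ a = mult (1, 1) (G a b γ) + coeff γ (Vc d) ∧
        coeff γ b = mult (0, 0) (G a b γ))) := by
  constructor
  · rintro ⟨h1, h2, h3, h4⟩
    refine ⟨h1, h2, fun γ hγ => ⟨?_, ?_⟩⟩
    · have h := h4 γ
      rw [coeff_lam _ hγ, mult_sub, coeff_comb, mult_add, mult_smul, mult_smul, mult11_adj,
        mult11_one] at h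
      unfold G
      linarith
    · have h := h3 γ
      rw [coeff_lam _ hγ, mult_sub, coeff_comb, mult_add, mult_smul, mult_smul, mult00_adj,
        mult00_one, coeff_one, if_neg hγ] at h
      unfold G
      linarith
  · rintro ⟨h1, h2, h3⟩
    refine ⟨h1, h2, fun γ => ?_, fun γ => ?_⟩
    · by_cases hγ : γ = 0
      · subst hγ
        rw [coeff_lam_zero, mult00_one]
        simp
      · rw [coeff_lam _ hγ, mult_sub, coeff_comb, mult_add, mult_smul, mult_smul, mult00_adj,
          mult00_one, coeff_one, if_neg hγ]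
        have := (h3 γ hγ).2
        unfold G at this
        linarith
    · by_cases hγ : γ = 0
      · subst hγ
        rw [coeff_lam_zero, mult11_one]
        simp [Vc]
      · rw [coeff_lam _ hγ, mult_sub, coeff_comb, mult_add, mult_smul, mult_smul, mult11_adj,
          mult11_one]
        have := (h3 γ hγ).1
        unfold G at this
        linarith

theorem G_congr {a b a' b' : MvPowerSeries (Fin d) ℤ} {γ : Fin d →₀ ℕ}
    (h : ∀ α < γ, coeff α a = coeff α a' ∧ coeff α b = coeff α b') : G a b γ = G a' b' γ := by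
  unfold G
  congr 2
  refine Finset.prod_congr rfl fun α hα => ?_
  rw [Finset.mem_Iio] at hα
  rw [coeff_comb, coeff_comb, (h α hα).1, (h α hα).2]

/-- Uniqueness. -/
theorem isPair0_unique {a b a' b' : MvPowerSeries (Fin d) ℤ} (h : IsPair0 a b)
    (h' : IsPair0 a' b') : a' = a ∧ b' = b := by
  rw [isPair0_iff] at h h'
  have key : ∀ γ : Fin d →₀ ℕ, coeff γ a' = coeff γ a ∧ coeff γ b' = coeff γ b := by
    intro γ
    induction γ using WellFoundedLT.induction with
    | ind γ ih =>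
      by_cases hγ : γ = 0
      · subst hγ
        rw [coeff_zero_eq_constantCoeff_apply, coeff_zero_eq_constantCoeff_apply,
          coeff_zero_eq_constantCoeff_apply, coeff_zero_eq_constantCoeff_apply,
          h.1, h.2.1, h'.1, h'.2.1]
        exact ⟨rfl, rfl⟩
      · have e : G a' b' γ = G a b γ := G_congr fun α hα => ih α hα
        rw [(h.2.2 γ hγ).1, (h.2.2 γ hγ).2, (h'.2.2 γ hγ).1, (h'.2.2 γ hγ).2, e]
        exact ⟨rfl, rfl⟩
  exact ⟨MvPowerSeries.ext fun γ => (key γ).1, MvPowerSeries.ext fun γ => (key γ).2⟩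

/-- Existence. -/
theorem exists_isPair0 (d : ℕ) : ∃ a b : MvPowerSeries (Fin d) ℤ, IsPair0 a b := by
  classical
  let F : (γ : Fin d →₀ ℕ) → ((δ : Fin d →₀ ℕ) → δ < γ → ℤ × ℤ) → ℤ × ℤ := fun γ rec =>
    if γ = 0 then (0, 0) else
    let X : MvPowerSeries (Fin d) Lat := fun δ =>
      if h : δ < γ then (rec δ h).1 • adj + (rec δ h).2 • (1 : Lat) else 0
    let g : Lat := coeff γ ((∏ α ∈ Finset.Iio γ, facL α (coeff α X) :
      (MvPowerSeries (Fin d) Lat)ˣ) : MvPowerSeries (Fin d) Lat)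
    (mult (1, 1) g + coeff γ (Vc d), mult (0, 0) g)
  let sol : (Fin d →₀ ℕ) → ℤ × ℤ := WellFounded.fix wellFounded_lt F
  have hsol : ∀ γ, sol γ = F γ (fun δ _ => sol δ) := fun γ => WellFounded.fix_eq _ F γ
  let a : MvPowerSeries (Fin d) ℤ := fun γ => (sol γ).1
  let b : MvPowerSeries (Fin d) ℤ := fun γ => (sol γ).2
  refine ⟨a, b, ?_⟩
  rw [isPair0_iff]
  have h0 : sol 0 = (0, 0) := by
    rw [hsol]; simp [F]
  refine ⟨?_, ?_, ?_⟩
  · rw [← coeff_zero_eq_constantCoeff_apply]
    exact congrArg Prod.fst h0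
  · rw [← coeff_zero_eq_constantCoeff_apply]
    exact congrArg Prod.snd h0
  · intro γ hγ
    have hG : G a b γ = coeff γ ((∏ α ∈ Finset.Iio γ, facL α
        (coeff α (fun δ => if h : δ < γ then (sol δ).1 • adj + (sol δ).2 • (1 : Lat) else 0 :
          MvPowerSeries (Fin d) Lat)) :
      (MvPowerSeries (Fin d) Lat)ˣ) : MvPowerSeries (Fin d) Lat) := by
      unfold G
      congr 2
      refine Finset.prod_congr rfl fun α hα => ?_
      rw [Finset.mem_Iio] at hα
      congr 1
      have e2 : coeff α (fun δ => if h : δ < γ then (sol δ).1 • adj + (sol δ).2 • (1 : Lat) else 0 :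
          MvPowerSeries (Fin d) Lat) =
          if h : α < γ then (sol α).1 • adj + (sol α).2 • (1 : Lat) else 0 := rfl
      rw [coeff_comb, e2, dif_pos hα]
      rfl
    have hs := hsol γ
    simp only [F, if_neg hγ] at hs
    rw [hG]
    exact ⟨congrArg Prod.fst hs, congrArg Prod.snd hs⟩

end Pool.Agent.Helper84.Alt
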