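import Pool.Agent.Helper84.AltStep

set_option autoImplicit false

namespace Pool.Agent.Helper84.Alt

open MvPowerSeries

variable {d : ℕ}

/-- Sum of the coefficients of total degree `n` supported in `E`. -/
noncomputable def tot (E : Finset (Fin d)) (a : MvPowerSeries (Fin d) ℤ) (n : ℕ) : ℤ :=
  ∑ α ∈ E.finsuppAntidiag n, coeff α a

/-- The one-variable input. -/
noncomputable def Yf (E : Finset (Fin d)) (a b : MvPowerSeries (Fin d) ℤ) (n : ℕ) : Lat :=
  ∑ α ∈ E.finsuppAntidiag n, coeff α (comb a b)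

theorem Yf_eq (E : Finset (Fin d)) (a b : MvPowerSeries (Fin d) ℤ) (n : ℕ) :
    Yf E a b n = tot E a n • adj + tot E b n • (1 : Lat) := by
  unfold Yf tot
  simp only [coeff_comb]
  rw [Finset.sum_add_distrib, Finset.sum_smul, Finset.sum_smul]

theorem sum_one (E : Finset (Fin d)) (n : ℕ) :
    ∑ γ ∈ E.finsuppAntidiag (n + 1), coeff γ (1 : MvPowerSeries (Fin d) ℤ) = 0 := by
  refine Finset.sum_eq_zero fun γ hγ => ?_
  rw [coeff_one, if_neg]
  rintro rfl
  rw [Finset.mem_finsuppAntidiag] at hγ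
  simp at hγ

theorem sum_Vc (E : Finset (Fin d)) (n : ℕ) :
    ∑ γ ∈ E.finsuppAntidiag (n + 1), coeff γ (Vc d) = if n = 0 then (E.card : ℤ) else 0 := by
  unfold Vc
  simp only [map_sum]
  rw [Finset.sum_comm]
  have h : ∀ i : Fin d, ∑ γ ∈ E.finsuppAntidiag (n + 1),
      coeff γ (X i : MvPowerSeries (Fin d) ℤ) = if i ∈ E ∧ n = 0 then 1 else 0 := by
    intro i
    simp only [coeff_X]
    rw [Finset.sum_ite_eq']
    have : Finsupp.single i 1 ∈ E.finsuppAntidiag (n + 1) ↔ (i ∈ E ∧ n = 0) := by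
      rw [Finset.mem_finsuppAntidiag]
      constructor
      · rintro ⟨h1, h2⟩
        have hi : i ∈ E := h2 (by simp)
        refine ⟨hi, ?_⟩
        rw [Finset.sum_eq_single i] at h1
        · simp at h1; omega
        · intro j _ hj
          simp [hj.symm]
        · intro h; exact absurd hi h
      · rintro ⟨hi, rfl⟩
        refine ⟨?_, ?_⟩
        · rw [Finset.sum_eq_single i]
          · simp
          · intro j _ hj
            simp [hj.symm]
          · intro h; exact absurd hi h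
        · intro j hj
          simp only [Finsupp.mem_support_iff, ne_eq] at hj
          by_cases hji : i = j
          · rw [← hji]; exact hi
          · exact absurd (Finsupp.single_eq_of_ne (Ne.symm hji)) hj
    simp only [this]
  simp only [h]
  by_cases hn : n = 0
  · simp [hn]
  · simp [hn]

theorem recursion (E : Finset (Fin d)) {a b : MvPowerSeries (Fin d) ℤ} (h : IsPair0 a b) (n : ℕ) :
    tot E a (n + 1) = mult (1, 1) (PowerSeries.coeff (n + 1)
        ((Psi (Yf E a b) n : (PowerSeries Lat)ˣ) : PowerSeries Lat)) +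
        (if n = 0 then (E.card : ℤ) else 0) ∧
    tot E b (n + 1) = mult (0, 0) (PowerSeries.coeff (n + 1)
        ((Psi (Yf E a b) n : (PowerSeries Lat)ˣ) : PowerSeries Lat)) := by
  obtain ⟨-, -, h3, h4⟩ := h
  have e := spec_lam E (comb a b) (le_refl (n + 1))
  change _ = PowerSeries.coeff (n + 1) ((Psi (Yf E a b) (n + 1) : (PowerSeries Lat)ˣ) :
    PowerSeries Lat) at e
  rw [coeff_Psi_succ, coeff_specFun] at e
  have e0 := congrArg (mult (0, 0)) e
  have e1 := congrArg (mult (1, 1)) e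
  rw [mult_sum, mult_sub, Yf_eq, mult_add, mult_smul, mult_smul, mult00_adj, mult00_one,
    Finset.sum_congr rfl (fun γ _ => h3 γ), sum_one] at e0
  rw [mult_sum, mult_sub, Yf_eq, mult_add, mult_smul, mult_smul, mult11_adj, mult11_one,
    Finset.sum_congr rfl (fun γ _ => h4 γ), Finset.sum_neg_distrib, sum_Vc] at e1
  constructor <;> linarith

/-- The values computed by the program. -/
def Av (N n : ℕ) : ℤ := rd (run N n).1 (n + 1) 1 1 + (if n = 0 then 3 else 0)
def Bv (N n : ℕ) : ℤ := rd (run N n).1 (n + 1) 0 0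

theorem run_succ_fst (N n : ℕ) : (run N (n + 1)).1 =
    step N (n + 1) (Av N n).toNat (2 * Av N n + Bv N n).toNat (run N n).1 := rfl

theorem run_succ_snd (N n : ℕ) : (run N (n + 1)).2 = (Av N n, Bv N n) :: (run N n).2 := rfl

/-- The explicit values. -/
theorem values : (Av 11 9 = 56961) ∧ ∀ n < 10, 0 ≤ Av 11 n ∧ 0 ≤ 2 * Av 11 n + Bv 11 n := by
  have h := run_eval
  simp only [run_succ_snd, List.cons.injEq, Prod.mk.injEq] at h
  obtain ⟨⟨a9, b9⟩, ⟨a8, b8⟩, ⟨a7, b7⟩, ⟨a6, b6⟩, ⟨a5, b5⟩, ⟨a4, b4⟩, ⟨a3, b3⟩, ⟨a2, b2⟩,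
    ⟨a1, b1⟩, ⟨a0, b0⟩, -⟩ := h
  refine ⟨a9, ?_⟩
  intro n hn
  interval_cases n <;> simp_all

theorem run_spec {E : Finset (Fin d)} (hE : E.card = 3) {a b : MvPowerSeries (Fin d) ℤ}
    (h : IsPair0 a b) (n : ℕ) (hn : n ≤ 10) :
    Rep 11 (run 11 n).1 ((Psi (Yf E a b) n : (PowerSeries Lat)ˣ) : PowerSeries Lat) := by
  induction n with
  | zero =>
    have h1 : Psi (Yf E a b) 0 = 1 := by
      unfold Psi
      rw [Finset.prod_range_one]
      unfold facP facL
      rw [Finsupp.single_zero]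
      exact Finset.prod_eq_one fun β _ => by rw [fac_zero, one_zpow]
    have h2 : l3 (run 11 0).1 = 1 := by
      have : l3 [[[1]]] = PowerSeries.C (((1 : ℤ) : Lat) + ex (0, 1) * 0 + ex (1, 0) * 0)
          + Zv * 0 := rfl
      show l3 [[[1]]] = 1
      rw [this]
      simp
    rw [h1, Rep, h2]
    simp
  | succ n ih =>
    have hr := ih (by omega)
    obtain ⟨h1, h2⟩ := recursion E h n
    have hc := coeff_of_rep hr (m := n + 1) (by omega)
    rw [hc] at h1 h2
    have hA : tot E a (n + 1) = Av 11 n := by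
      rw [h1, Av, hE]
      have := rd_spec (run 11 n).1 (n + 1) 1 1
      rw [← this]
      rfl
    have hB : tot E b (n + 1) = Bv 11 n := by
      rw [h2, Bv]
      have := rd_spec (run 11 n).1 (n + 1) 0 0
      rw [← this]
      rfl
    obtain ⟨p1, p2⟩ := values.2 n (by omega)
    have hs := step_spec (N := 11) (n := n + 1) (by omega) p1 p2 hr
    rw [← run_succ_fst] at hs
    have e : ((Psi (Yf E a b) (n + 1) : (PowerSeries Lat)ˣ) : PowerSeries Lat) =
        ((facP (n + 1) (Av 11 n • adj + Bv 11 n • (1 : Lat)) : (PowerSeries Lat)ˣ) :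
          PowerSeries Lat) * ((Psi (Yf E a b) n : (PowerSeries Lat)ˣ) : PowerSeries Lat) := by
      have : Psi (Yf E a b) (n + 1) = Psi (Yf E a b) n * facP (n + 1) (Yf E a b (n + 1)) := by
        unfold Psi
        rw [Finset.prod_range_succ]
      rw [this, Yf_eq, hA, hB, Units.val_mul, mul_comm]
    rw [e]
    exact hs

/-- The degree-`10` dimension predicted for three generators. -/
theorem tot_ten {E : Finset (Fin d)} (hE : E.card = 3) {a b : MvPowerSeries (Fin d) ℤ}
    (h : IsPair0 a b) : tot E a 10 = 56961 := by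
  have hr := run_spec hE h 9 (by omega)
  obtain ⟨h1, -⟩ := recursion E h 9
  rw [coeff_of_rep hr (m := 10) (by omega)] at h1
  rw [← values.1, h1, Av, hE]
  have := rd_spec (run 11 9).1 10 1 1
  rw [← this]
  rfl

end Pool.Agent.Helper84.Alt
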