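import Pool.Agent.Helper84.AltLower
import Pool.Agent.Helper84.AltVal

set_option autoImplicit false
set_option linter.unusedSectionVars false

namespace Pool.Agent.Helper84.Alt

variable (k : Type*) [Field k] {d : ℕ}

/-- Associative words of length `n` with letters in `E`. -/
def wordsE (E : Finset (Fin d)) (n : ℕ) : Finset (List (Fin d)) :=
  (Fintype.piFinset (fun _ : Fin n => E)).image List.ofFn

theorem card_wordsE (E : Finset (Fin d)) (n : ℕ) : (wordsE E n).card = E.card ^ n := by
  unfold wordsE
  rw [Finset.card_image_of_injective _ List.ofFn_injective, Fintype.card_piFinset_const]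

theorem cont_mem (E : Finset (Fin d)) (l : List (Fin d)) (h : ∀ i ∈ l, i ∈ E) :
    cont l ∈ E.finsuppAntidiag l.length := by
  rw [Finset.mem_finsuppAntidiag]
  induction l with
  | nil => simp [cont]
  | cons a l ih =>
    obtain ⟨h1, h2⟩ := ih fun i hi => h i (List.mem_cons_of_mem _ hi)
    have ha : a ∈ E := h a (List.mem_cons_self)
    have e : cont (a :: l) = Finsupp.single a 1 + cont l := by simp [cont]
    constructor
    · rw [e]
      simp only [Finsupp.coe_add, Pi.add_apply, Finset.sum_add_distrib]
      rw [h1, Finset.sum_eq_single a]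
      · simp; ring
      · intro j _ hj
        simp [hj.symm]
      · intro hh; exact absurd ha hh
    · rw [e]
      refine Finsupp.support_add.trans (Finset.union_subset ?_ h2)
      refine Finsupp.support_single_subset.trans ?_
      simpa using ha

theorem tot_altChar_ge (E : Finset (Fin d)) (n : ℕ) (hn : 1 ≤ n) :
    (E.card : ℤ) ^ n ≤ tot E (altChar k d) n := by
  classical
  have h1 : (wordsE E n).card =
      ∑ α ∈ E.finsuppAntidiag n, ((wordsE E n).filter (fun l => cont l = α)).card := by
    apply Finset.card_eq_sum_card_fiberwise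
    intro l hl
    rw [Finset.mem_coe, wordsE, Finset.mem_image] at hl
    obtain ⟨f, hf, rfl⟩ := hl
    have := cont_mem E (List.ofFn f) (by
      intro i hi
      rw [List.mem_ofFn] at hi
      obtain ⟨j, rfl⟩ := hi
      exact (Fintype.mem_piFinset.1 hf) j)
    rw [List.length_ofFn] at this
    exact this
  have h2 : (wordsE E n).card ≤
      ∑ α ∈ E.finsuppAntidiag n, Module.finrank k (altWeight k d α) := by
    rw [h1]
    refine Finset.sum_le_sum fun α _ => ?_
    apply card_le_finrank
    intro l hl
    rw [Finset.mem_filter] at hl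
    refine ⟨?_, hl.2⟩
    rintro rfl
    have h3 := hl.1
    rw [wordsE, Finset.mem_image] at h3
    obtain ⟨f, -, hf⟩ := h3
    have := congrArg List.length hf
    simp at this
    omega
  rw [card_wordsE] at h2
  have h4 : tot E (altChar k d) n =
      ((∑ α ∈ E.finsuppAntidiag n, Module.finrank k (altWeight k d α) : ℕ) : ℤ) := by
    unfold tot
    push_cast
    rfl
  rw [h4]
  exact_mod_cast h2

theorem altChar_ne (hd : 3 ≤ d) {a b : MvPowerSeries (Fin d) ℤ} (h : IsPair a b) :
    altChar k d ≠ a := by
  intro he
  obtain ⟨E, -, hE⟩ := Finset.exists_subset_card_eq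
    (s := (Finset.univ : Finset (Fin d))) (n := 3) (by simpa using hd)
  have h1 := tot_ten hE ((isPair_iff a b).1 h)
  have h2 := tot_altChar_ge k E 10 (by omega)
  rw [he, h1, hE] at h2
  norm_num at h2

end Pool.Agent.Helper84.Alt
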