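import Pool.Agent.Helper84.AltDefs

set_option autoImplicit false

namespace Pool.Agent.Helper84.Alt

open MvPowerSeries

set_option linter.unusedSectionVars false

variable {σ : Type} [DecidableEq σ]

/-- The factor of `λ` in degree `α`. -/
noncomputable def facL (α : σ →₀ ℕ) (f : Lat) : (MvPowerSeries σ Lat)ˣ :=
  ∏ β ∈ f.coeff.support, fac α β ^ f.coeff β

theorem lam_eq (X : MvPowerSeries σ Lat) (γ : σ →₀ ℕ) :
    coeff γ (lam X) =
      coeff γ ((∏ α ∈ Finset.Iic γ, facL α (coeff α X) : (MvPowerSeries σ Lat)ˣ) :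
        MvPowerSeries σ Lat) := rfl

theorem facL_zero (α : σ →₀ ℕ) : facL α 0 = 1 := by
  simp [facL]

theorem facL_add (α : σ →₀ ℕ) (f g : Lat) : facL α (f + g) = facL α f * facL α g := by
  have := Finsupp.prod_add_index' (f := f.coeff) (g := g.coeff)
    (h := fun β c => fac α β ^ c) (fun a => zpow_zero _) (fun a b₁ b₂ => zpow_add _ _ _)
  exact this

theorem facL_single (α : σ →₀ ℕ) (β : ℤ × ℤ) (c : ℤ) :
    facL α (AddMonoidAlgebra.single β c) = fac α β ^ c := by
  have := Finsupp.prod_single_index (a := β) (b := c) (h := fun β c => fac α β ^ c)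
    (zpow_zero (fac α β))
  exact this

theorem fac_zero (β : ℤ × ℤ) : fac (0 : σ →₀ ℕ) β = 1 := by
  simp [fac]

theorem fac_val {α : σ →₀ ℕ} (h : α ≠ 0) (β : ℤ × ℤ) :
    ((fac α β : (MvPowerSeries σ Lat)ˣ) : MvPowerSeries σ Lat) = 1 - monomial α (ex β) := by
  simp [fac, h]

/-- Units congruent to `1` modulo `x^α`. -/
def IsK (α : σ →₀ ℕ) (v : (MvPowerSeries σ Lat)ˣ) : Prop :=
  ∃ g : MvPowerSeries σ Lat, (v : MvPowerSeries σ Lat) = 1 + monomial α 1 * g

theorem IsK.one (α : σ →₀ ℕ) : IsK α 1 := ⟨0, by simp⟩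

theorem IsK.mul {α : σ →₀ ℕ} {v w : (MvPowerSeries σ Lat)ˣ} (hv : IsK α v) (hw : IsK α w) :
    IsK α (v * w) := by
  obtain ⟨g, hg⟩ := hv
  obtain ⟨h, hh⟩ := hw
  refine ⟨g + h + monomial α 1 * g * h, ?_⟩
  rw [Units.val_mul, hg, hh]
  ring

theorem IsK.inv {α : σ →₀ ℕ} {v : (MvPowerSeries σ Lat)ˣ} (hv : IsK α v) : IsK α v⁻¹ := by
  obtain ⟨g, hg⟩ := hv
  refine ⟨- g * (v⁻¹ : (MvPowerSeries σ Lat)ˣ), ?_⟩
  have h : (v : MvPowerSeries σ Lat) * (v⁻¹ : (MvPowerSeries σ Lat)ˣ) = 1 := Units.mul_inv v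
  rw [hg] at h
  linear_combination h

theorem IsK.pow {α : σ →₀ ℕ} {v : (MvPowerSeries σ Lat)ˣ} (hv : IsK α v) (n : ℕ) :
    IsK α (v ^ n) := by
  induction n with
  | zero => rw [pow_zero]; exact IsK.one α
  | succ n ih => rw [pow_succ]; exact ih.mul hv

theorem IsK.zpow {α : σ →₀ ℕ} {v : (MvPowerSeries σ Lat)ˣ} (hv : IsK α v) (n : ℤ) :
    IsK α (v ^ n) := by
  obtain ⟨m, rfl | rfl⟩ := n.eq_nat_or_neg
  · rw [zpow_natCast]; exact hv.pow m
  · rw [zpow_neg, zpow_natCast]; exact (hv.pow m).inv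

theorem IsK.prod {ι : Type*} {α : σ →₀ ℕ} (s : Finset ι) (v : ι → (MvPowerSeries σ Lat)ˣ)
    (hv : ∀ i ∈ s, IsK α (v i)) : IsK α (∏ i ∈ s, v i) := by
  classical
  induction s using Finset.induction_on with
  | empty => rw [Finset.prod_empty]; exact IsK.one α
  | insert a s ha ih =>
    rw [Finset.prod_insert ha]
    exact (hv a (Finset.mem_insert_self _ _)).mul
      (ih fun i hi => hv i (Finset.mem_insert_of_mem hi))

theorem isK_fac (α : σ →₀ ℕ) (β : ℤ × ℤ) : IsK α (fac α β) := by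
  by_cases h : α = 0
  · subst h; rw [fac_zero]; exact IsK.one 0
  · refine ⟨- C (ex β), ?_⟩
    rw [fac_val h, mul_neg, ← sub_eq_add_neg]
    congr 1
    rw [← monomial_zero_eq_C_apply, monomial_mul_monomial]
    simp

theorem isK_facL (α : σ →₀ ℕ) (f : Lat) : IsK α (facL α f) :=
  IsK.prod _ _ fun β _ => (isK_fac α β).zpow _

theorem coeff_mul_of_isK {α γ : σ →₀ ℕ} {v : (MvPowerSeries σ Lat)ˣ} (hv : IsK α v)
    (h : ¬ α ≤ γ) (p : MvPowerSeries σ Lat) :
    coeff γ (p * (v : MvPowerSeries σ Lat)) = coeff γ p := by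
  obtain ⟨g, hg⟩ := hv
  rw [hg, mul_add, mul_one, map_add]
  have : p * (monomial α 1 * g) = monomial α 1 * (p * g) := by ring
  rw [this, coeff_monomial_mul, if_neg h, add_zero]

/-- The lowest term. -/
theorem coeff_mul_of_isK_self {γ : σ →₀ ℕ} {v : (MvPowerSeries σ Lat)ˣ} (hv : IsK γ v)
    (h : γ ≠ 0) (p : MvPowerSeries σ Lat) :
    coeff γ (p * (v : MvPowerSeries σ Lat)) =
      coeff γ p + coeff 0 p * coeff γ (v : MvPowerSeries σ Lat) := by
  obtain ⟨g, hg⟩ := hv
  rw [hg, mul_add, mul_one, map_add]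
  have : p * (monomial γ 1 * g) = monomial γ 1 * (p * g) := by ring
  rw [this, coeff_monomial_mul, if_pos le_rfl, map_add, coeff_monomial_mul, if_pos le_rfl,
    tsub_self, one_mul, one_mul, coeff_one, if_neg h, zero_add]
  simp

theorem coeff_zero_of_isK {γ : σ →₀ ℕ} {v : (MvPowerSeries σ Lat)ˣ} (hv : IsK γ v)
    (h : γ ≠ 0) : coeff 0 (v : MvPowerSeries σ Lat) = 1 := by
  have h0 : ¬ γ ≤ 0 := fun h1 => h (le_antisymm h1 bot_le)
  have := coeff_mul_of_isK hv h0 1
  rw [one_mul] at this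
  rw [this]
  simp

theorem coeff_zpow_of_isK {γ : σ →₀ ℕ} {v : (MvPowerSeries σ Lat)ˣ} (hv : IsK γ v)
    (h : γ ≠ 0) (n : ℤ) :
    coeff γ ((v ^ n : (MvPowerSeries σ Lat)ˣ) : MvPowerSeries σ Lat) =
      n • coeff γ (v : MvPowerSeries σ Lat) := by
  have step : ∀ n : ℤ, coeff γ ((v ^ (n + 1) : (MvPowerSeries σ Lat)ˣ) : MvPowerSeries σ Lat) =
      coeff γ ((v ^ n : (MvPowerSeries σ Lat)ˣ) : MvPowerSeries σ Lat) +
        coeff γ (v : MvPowerSeries σ Lat) := by
    intro n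
    rw [zpow_add_one, Units.val_mul, coeff_mul_of_isK_self hv h,
      coeff_zero_of_isK (hv.zpow n) h, one_mul]
  induction n using Int.induction_on with
  | zero => simp [coeff_one, h]
  | succ n ih => rw [step, ih, add_smul, one_smul]
  | pred n ih =>
    have := step (-(n : ℤ) - 1)
    rw [sub_add_cancel, ih] at this
    rw [sub_smul, one_smul, this, add_sub_cancel_right]

theorem coeff_facL (γ : σ →₀ ℕ) (h : γ ≠ 0) (f : Lat) :
    coeff γ ((facL γ f : (MvPowerSeries σ Lat)ˣ) : MvPowerSeries σ Lat) = - f := by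
  induction f using AddMonoidAlgebra.induction_linear with
  | zero => rw [facL_zero]; simp [coeff_one, h]
  | add x y hx hy =>
    rw [facL_add, Units.val_mul, coeff_mul_of_isK_self (isK_facL γ y) h,
      coeff_zero_of_isK (isK_facL γ x) h, hx, hy]
    ring
  | single β c =>
    rw [facL_single, coeff_zpow_of_isK (isK_fac γ β) h, fac_val h, map_sub, coeff_one,
      if_neg h, coeff_monomial, if_pos rfl, zero_sub, ex, smul_neg]
    congr 1
    simp

/-- Only factors with `α ≤ γ` matter for the coefficient of `x^γ`. -/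
theorem coeff_prod_trunc {γ : σ →₀ ℕ} (F : (σ →₀ ℕ) → (MvPowerSeries σ Lat)ˣ)
    (hF : ∀ α, IsK α (F α)) (t : Finset (σ →₀ ℕ)) (ht : ∀ α ∈ t, ¬ α ≤ γ)
    (p : MvPowerSeries σ Lat) :
    coeff γ (p * ((∏ α ∈ t, F α : (MvPowerSeries σ Lat)ˣ) : MvPowerSeries σ Lat)) =
      coeff γ p := by
  induction t using Finset.induction_on generalizing p with
  | empty => simp
  | insert a t ha ih =>
    rw [Finset.prod_insert ha, Units.val_mul, mul_comm ((F a : MvPowerSeries σ Lat)), ← mul_assoc,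
      coeff_mul_of_isK (hF a) (ht a (Finset.mem_insert_self _ _)),
      ih (fun α hα => ht α (Finset.mem_insert_of_mem hα))]

theorem lam_eq_of_subset (X : MvPowerSeries σ Lat) {γ : σ →₀ ℕ} {s : Finset (σ →₀ ℕ)}
    (hs : Finset.Iic γ ⊆ s) :
    coeff γ (lam X) =
      coeff γ ((∏ α ∈ s, facL α (coeff α X) : (MvPowerSeries σ Lat)ˣ) :
        MvPowerSeries σ Lat) := by
  rw [lam_eq, ← Finset.prod_sdiff hs, mul_comm, Units.val_mul, coeff_prod_trunc]
  · intro α; exact isK_facL α _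
  · intro α hα hle
    rw [Finset.mem_sdiff] at hα
    exact hα.2 (Finset.mem_Iic.2 hle)

/-- Recursive structure of `λ`. -/
theorem coeff_lam (X : MvPowerSeries σ Lat) {γ : σ →₀ ℕ} (h : γ ≠ 0) :
    coeff γ (lam X) =
      coeff γ ((∏ α ∈ Finset.Iio γ, facL α (coeff α X) : (MvPowerSeries σ Lat)ˣ) :
        MvPowerSeries σ Lat) - coeff γ X := by
  have e : Finset.Iic γ = insert γ (Finset.Iio γ) := by
    ext x; simp [le_iff_eq_or_lt]
  rw [lam_eq, e, Finset.prod_insert (by simp), mul_comm, Units.val_mul,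
    coeff_mul_of_isK_self (isK_facL γ _) h, coeff_facL γ h]
  have h0 : coeff 0 ((∏ α ∈ Finset.Iio γ, facL α (coeff α X) : (MvPowerSeries σ Lat)ˣ) :
        MvPowerSeries σ Lat) = 1 := by
    have hz : ∀ s : Finset (σ →₀ ℕ), (∀ α ∈ s, α ≠ 0 ∨ facL α (coeff α X) = 1) →
        coeff 0 ((∏ α ∈ s, facL α (coeff α X) : (MvPowerSeries σ Lat)ˣ) :
        MvPowerSeries σ Lat) = 1 := by
      intro s
      induction s using Finset.induction_on with
      | empty => intro _; simp
      | insert a s ha ih =>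
        intro hs
        rw [Finset.prod_insert ha, mul_comm, Units.val_mul]
        rcases hs a (Finset.mem_insert_self _ _) with h' | h'
        · rw [coeff_mul_of_isK (isK_facL a _) (fun hle => h' (le_antisymm hle bot_le))]
          exact ih fun α hα => hs α (Finset.mem_insert_of_mem hα)
        · rw [h', Units.val_one, mul_one]
          exact ih fun α hα => hs α (Finset.mem_insert_of_mem hα)
    apply hz
    intro α _
    by_cases hα : α = 0
    · right
      subst hα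
      rw [facL]
      exact Finset.prod_eq_one fun β _ => by rw [fac_zero, one_zpow]
    · left; exact hα
  rw [h0]
  ring

theorem coeff_lam_zero (X : MvPowerSeries σ Lat) : coeff 0 (lam X) = 1 := by
  have e : Finset.Iic (0 : σ →₀ ℕ) = {0} := by
    ext x; simp
  rw [lam_eq, e, Finset.prod_singleton, facL]
  have : ∏ β ∈ (coeff (0 : σ →₀ ℕ) X).coeff.support, fac (0 : σ →₀ ℕ) β ^
      ((coeff (0 : σ →₀ ℕ) X).coeff β) = 1 :=
    Finset.prod_eq_one fun β _ => by rw [fac_zero, one_zpow]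
  rw [this]
  simp

end Pool.Agent.Helper84.Alt
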