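import Pool.Agent.Helper84.AltDefs

set_option autoImplicit false
set_option linter.unusedSectionVars false

namespace Pool.Agent.Helper84.Alt

variable (k : Type*) [Field k] {d : ℕ}

/-- The free associative algebra. -/
abbrev Wd (k : Type*) [Field k] (d : ℕ) : Type _ := MonoidAlgebra k (FreeMonoid (Fin d))

/-- The associative word of a non-associative word. -/
def word : FreeMagma (Fin d) → FreeMonoid (Fin d)
  | .of i => FreeMonoid.of i
  | .mul x y => word x * word y

/-- The projection of the free non-associative algebra onto the free associative one. -/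
noncomputable def psi : FreeNonUnitalNonAssocAlgebra k (Fin d) →ₙₐ[k] Wd k d :=
  FreeNonUnitalNonAssocAlgebra.lift k (fun i => MonoidAlgebra.single (FreeMonoid.of i) 1)

theorem psi_single (w : FreeMagma (Fin d)) :
    psi k (MonoidAlgebra.single w 1) = MonoidAlgebra.single (word w) 1 := by
  induction w with
  | ih1 i =>
    have := FreeNonUnitalNonAssocAlgebra.lift_of_apply (R := k) (A := Wd k d)
      (fun i : Fin d => MonoidAlgebra.single (FreeMonoid.of i) 1) i
    exact this
  | ih2 x y hx hy =>
    have e : (MonoidAlgebra.single (x * y) 1 : FreeNonUnitalNonAssocAlgebra k (Fin d)) =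
        MonoidAlgebra.single x 1 * MonoidAlgebra.single y 1 := by
      rw [MonoidAlgebra.single_mul_single, one_mul]
    have e' : (MonoidAlgebra.single (word x * word y) 1 : Wd k d) =
        MonoidAlgebra.single (word x) 1 * MonoidAlgebra.single (word y) 1 := by
      rw [MonoidAlgebra.single_mul_single, one_mul]
    change psi k (MonoidAlgebra.single (x * y) 1) = MonoidAlgebra.single (word x * word y) 1
    rw [e, e', map_mul, hx, hy]

/-- `psi` as a linear map. -/
noncomputable def psiL : FreeNonUnitalNonAssocAlgebra k (Fin d) →ₗ[k] Wd k d where
  toFun := psi k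
  map_add' := map_add (psi k)
  map_smul' := map_smul (psi k)

theorem psiL_apply (x : FreeNonUnitalNonAssocAlgebra k (Fin d)) : psiL k x = psi k x := rfl

theorem altIdeal_le : altIdeal k d ≤ LinearMap.ker (psiL k) := by
  apply sInf_le
  refine ⟨?_, ?_, ?_⟩
  · intro a b
    rw [LinearMap.mem_ker, psiL_apply, map_sub, map_mul, map_mul, map_mul, map_mul, mul_assoc,
      sub_self]
  · intro a b
    rw [LinearMap.mem_ker, psiL_apply, map_sub, map_mul, map_mul, map_mul, map_mul, mul_assoc,
      sub_self]
  · intro x hx y
    rw [LinearMap.mem_ker, psiL_apply] at hx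
    constructor
    · rw [LinearMap.mem_ker, psiL_apply, map_mul, hx, zero_mul]
    · rw [LinearMap.mem_ker, psiL_apply, map_mul, hx, mul_zero]

/-- The induced map from the free alternative algebra. -/
noncomputable def psiQ : (FreeNonUnitalNonAssocAlgebra k (Fin d) ⧸ altIdeal k d) →ₗ[k] Wd k d :=
  (altIdeal k d).liftQ (psiL k) (altIdeal_le k)

theorem psiQ_mk (w : FreeMagma (Fin d)) :
    psiQ k ((altIdeal k d).mkQ (MonoidAlgebra.single w 1)) =
      MonoidAlgebra.single (word w) 1 := by
  unfold psiQ
  rw [Submodule.mkQ_apply, Submodule.liftQ_apply, psiL_apply, psi_single]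

/-- Right-nested magma word of a nonempty list. -/
def comb' : Fin d → List (Fin d) → FreeMagma (Fin d)
  | a, [] => .of a
  | a, b :: l => .mul (.of a) (comb' b l)

/-- Multidegree of a list. -/
noncomputable def cont (l : List (Fin d)) : Fin d →₀ ℕ :=
  (l.map (fun i => Finsupp.single i 1)).sum

theorem content_comb' (a : Fin d) (l : List (Fin d)) : content (comb' a l) = cont (a :: l) := by
  induction l generalizing a with
  | nil => simp [comb', content, cont]
  | cons b l ih =>
    rw [comb', content, content, ih]
    simp [cont]

theorem word_comb' (a : Fin d) (l : List (Fin d)) :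
    word (comb' a l) = FreeMonoid.ofList (a :: l) := by
  induction l generalizing a with
  | nil => rfl
  | cons b l ih =>
    rw [comb', word, word, ih]
    rfl

/-! ### Finite dimension -/

theorem finite_length_le (n : ℕ) : {w : FreeMagma (Fin d) | w.length ≤ n}.Finite := by
  induction n with
  | zero =>
    refine Set.Finite.subset Set.finite_empty ?_
    intro w hw
    have := FreeMagma.length_pos w
    have h2 : w.length ≤ 0 := hw
    omega
  | succ n ih =>
    refine Set.Finite.subset ((Set.finite_range (FreeMagma.of : Fin d → FreeMagma (Fin d))).union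
      (Set.Finite.image2 (fun x y => x * y) ih ih)) ?_
    intro w hw
    cases w with
    | of i => exact Or.inl ⟨i, rfl⟩
    | mul x y =>
      right
      have h1 := FreeMagma.length_pos x
      have h2 := FreeMagma.length_pos y
      have h3 : x.length + y.length ≤ n + 1 := hw
      exact ⟨x, (by show x.length ≤ n; omega), y, (by show y.length ≤ n; omega), rfl⟩

theorem degree_content (w : FreeMagma (Fin d)) : (content w).degree = w.length := by
  induction w with
  | ih1 i => simp [content, FreeMagma.length]
  | ih2 x y hx hy =>
    have : content (x * y) = content x + content y := rfl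
    rw [this, map_add, hx, hy]
    rfl

theorem finite_content (α : Fin d →₀ ℕ) : {w : FreeMagma (Fin d) | content w = α}.Finite := by
  refine Set.Finite.subset (finite_length_le α.degree) ?_
  intro w hw
  have h : content w = α := hw
  have := degree_content w
  rw [h] at this
  exact this.symm.le

instance finite_altWeight (α : Fin d →₀ ℕ) : Module.Finite k (altWeight k d α) := by
  unfold altWeight
  have hfin : {x | ∃ w : FreeMagma (Fin d), content w = α ∧
      x = (altIdeal k d).mkQ (MonoidAlgebra.single w 1)}.Finite := by
    refine Set.Finite.subset ((finite_content α).image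
      (fun w => (altIdeal k d).mkQ (MonoidAlgebra.single w 1))) ?_
    rintro x ⟨w, hw, rfl⟩
    exact ⟨w, hw, rfl⟩
  exact Module.Finite.span_of_finite k hfin

/-- Lower bound for the dimension of a weight space. -/
theorem card_le_finrank (α : Fin d →₀ ℕ) (S : Finset (List (Fin d)))
    (hS : ∀ l ∈ S, l ≠ [] ∧ cont l = α) : S.card ≤ Module.finrank k (altWeight k d α) := by
  classical
  -- the chosen non-associative words
  have hex : ∀ l : S, ∃ w : FreeMagma (Fin d), content w = α ∧
      word w = FreeMonoid.ofList l.1 := by
    rintro ⟨l, hl⟩
    obtain ⟨h1, h2⟩ := hS l hl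
    cases l with
    | nil => exact absurd rfl h1
    | cons a l => exact ⟨comb' a l, by rw [content_comb', h2], word_comb' a l⟩
  choose w hw hw' using hex
  let v : S → altWeight k d α := fun l =>
    ⟨(altIdeal k d).mkQ (MonoidAlgebra.single (w l) 1), Submodule.subset_span ⟨w l, hw l, rfl⟩⟩
  have hli : LinearIndependent k v := by
    apply LinearIndependent.of_comp ((psiQ k).comp (altWeight k d α).subtype)
    have e : ((psiQ k).comp (altWeight k d α).subtype) ∘ v =
        fun l : S => (MonoidAlgebra.single (FreeMonoid.ofList l.1) 1 : Wd k d) := by
      funext l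
      simp only [Function.comp_apply, LinearMap.comp_apply, Submodule.subtype_apply, v]
      rw [psiQ_mk, hw']
    have e' : (⇑((psiQ k).comp (altWeight k d α).subtype) ∘ v) =
        fun l : S => (MonoidAlgebra.single (FreeMonoid.ofList l.1) 1 : Wd k d) := e
    rw [e']
    apply LinearIndependent.of_comp (MonoidAlgebra.coeffLinearEquiv k).toLinearMap
    have h1 := Finsupp.linearIndependent_single_one k (FreeMonoid (Fin d))
    have hinj : Function.Injective (fun l : S => FreeMonoid.ofList l.1) := by
      intro l l' h
      exact Subtype.ext (FreeMonoid.ofList.injective h)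
    exact h1.comp _ hinj
  have := hli.fintype_card_le_finrank
  simpa using this

end Pool.Agent.Helper84.Alt
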