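import Pool.Agent.Helper84.AltSymm

set_option autoImplicit false
set_option linter.unusedSectionVars false

namespace Pool.Agent.Helper84.Alt

open MvPowerSeries

variable {d : ℕ}

/-- Set `x_i = z` for `i ∈ E` and `x_i = 0` for `i ∉ E`. -/
noncomputable def specFun (E : Finset (Fin d)) (f : MvPowerSeries (Fin d) Lat) :
    PowerSeries Lat :=
  PowerSeries.mk fun n => ∑ α ∈ E.finsuppAntidiag n, coeff α f

theorem coeff_specFun (E : Finset (Fin d)) (f : MvPowerSeries (Fin d) Lat) (n : ℕ) :
    PowerSeries.coeff n (specFun E f) = ∑ α ∈ E.finsuppAntidiag n, coeff α f :=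
  PowerSeries.coeff_mk _ _

theorem specFun_mul (E : Finset (Fin d)) (f g : MvPowerSeries (Fin d) Lat) :
    specFun E (f * g) = specFun E f * specFun E g := by
  ext1 n
  rw [coeff_specFun, PowerSeries.coeff_mul]
  simp only [coeff_specFun, coeff_mul, Finset.sum_mul_sum, ← Finset.sum_product']
  rw [Finset.sum_sigma', Finset.sum_sigma']
  refine Finset.sum_nbij' (fun x => ⟨(E.sum x.2.1, E.sum x.2.2), x.2⟩)
    (fun y => ⟨y.2.1 + y.2.2, y.2⟩) ?_ ?_ ?_ ?_ ?_
  · rintro ⟨α, p⟩ h
    simp only [Finset.mem_sigma, Finset.mem_finsuppAntidiag, Finset.HasAntidiagonal.mem_antidiagonal,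
      Finset.mem_product] at h ⊢
    obtain ⟨⟨h1, h2⟩, h3⟩ := h
    refine ⟨?_, ⟨trivial, ?_⟩, ⟨trivial, ?_⟩⟩
    · rw [← h1, ← h3, ← Finset.sum_add_distrib]
      rfl
    · refine subset_trans ?_ h2
      rw [← h3]
      exact Finsupp.support_mono (by simp)
    · refine subset_trans ?_ h2
      rw [← h3]
      exact Finsupp.support_mono (by simp)
  · rintro ⟨ij, p⟩ h
    simp only [Finset.mem_sigma, Finset.mem_finsuppAntidiag, Finset.HasAntidiagonal.mem_antidiagonal,
      Finset.mem_product] at h ⊢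
    obtain ⟨h0, ⟨h1, h2⟩, ⟨h3, h4⟩⟩ := h
    refine ⟨⟨?_, ?_⟩, trivial⟩
    · rw [← h0, ← h1, ← h3, ← Finset.sum_add_distrib]
      rfl
    · exact (Finsupp.support_add).trans (Finset.union_subset h2 h4)
  · rintro ⟨α, p⟩ h
    simp only [Finset.mem_sigma, Finset.mem_finsuppAntidiag, Finset.HasAntidiagonal.mem_antidiagonal] at h
    obtain ⟨⟨h1, h2⟩, h3⟩ := h
    simp [h3]
  · rintro ⟨ij, p⟩ h
    simp only [Finset.mem_sigma, Finset.mem_finsuppAntidiag, Finset.HasAntidiagonal.mem_antidiagonal,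
      Finset.mem_product] at h
    obtain ⟨h0, ⟨h1, h2⟩, ⟨h3, h4⟩⟩ := h
    obtain ⟨i, j⟩ := ij
    simp only at h1 h3
    rw [h1, h3]
  · rintro ⟨α, p⟩ h
    rfl

theorem specFun_monomial (E : Finset (Fin d)) (α : Fin d →₀ ℕ) (r : Lat)
    (h : α.support ⊆ E) : specFun E (monomial α r) = PowerSeries.monomial (E.sum α) r := by
  ext1 n
  rw [coeff_specFun, PowerSeries.coeff_monomial]
  simp only [coeff_monomial]
  rw [Finset.sum_ite_eq']
  congr 1
  rw [Finset.mem_finsuppAntidiag]
  simp only [h, and_true, eq_iff_iff]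
  exact eq_comm

/-- The specialisation as a ring homomorphism. -/
noncomputable def spec (E : Finset (Fin d)) : MvPowerSeries (Fin d) Lat →+* PowerSeries Lat where
  toFun := specFun E
  map_one' := by
    rw [← monomial_zero_one, specFun_monomial E 0 1 (by simp)]
    simp
  map_mul' := specFun_mul E
  map_zero' := by ext1 n; simp [coeff_specFun]
  map_add' f g := by ext1 n; simp [coeff_specFun, Finset.sum_add_distrib]

theorem spec_apply (E : Finset (Fin d)) (f : MvPowerSeries (Fin d) Lat) :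
    spec E f = specFun E f := rfl

/-- The one-variable factors. -/
noncomputable def facP (n : ℕ) (f : Lat) : (PowerSeries Lat)ˣ :=
  facL (Finsupp.single () n) f

theorem facP_add (n : ℕ) (f g : Lat) : facP n (f + g) = facP n f * facP n g := facL_add _ f g

theorem facP_zero (n : ℕ) : facP n 0 = 1 := facL_zero _

theorem facP_sum {ι : Type*} (n : ℕ) (s : Finset ι) (f : ι → Lat) :
    facP n (∑ i ∈ s, f i) = ∏ i ∈ s, facP n (f i) := by
  classical
  induction s using Finset.induction_on with
  | empty => simp [facP_zero]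
  | insert a s ha ih => rw [Finset.sum_insert ha, Finset.prod_insert ha, facP_add, ih]

theorem spec_fac (E : Finset (Fin d)) {α : Fin d →₀ ℕ} (h : α.support ⊆ E) (β : ℤ × ℤ) :
    Units.map (spec E : MvPowerSeries (Fin d) Lat →* PowerSeries Lat) (fac α β) =
      fac (Finsupp.single () (E.sum α)) β := by
  by_cases h0 : α = 0
  · subst h0
    have : (Finsupp.single () (E.sum (0 : Fin d →₀ ℕ)) : Unit →₀ ℕ) = 0 := by simp
    rw [fac_zero, this, fac_zero, map_one]
  · have h1 : (Finsupp.single () (E.sum α) : Unit →₀ ℕ) ≠ 0 := by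
      intro h2
      rw [Finsupp.single_eq_zero, Finset.sum_eq_zero_iff] at h2
      apply h0
      ext i
      by_cases hi : i ∈ E
      · exact h2 i hi
      · by_contra hne
        exact hi (h (Finsupp.mem_support_iff.2 hne))
    ext1
    rw [Units.coe_map, fac_val h1]
    simp only [MonoidHom.coe_coe]
    rw [fac_val h0, map_sub, map_one, spec_apply, specFun_monomial E α _ h]
    rfl

theorem spec_facL (E : Finset (Fin d)) {α : Fin d →₀ ℕ} (h : α.support ⊆ E) (f : Lat) :
    Units.map (spec E : MvPowerSeries (Fin d) Lat →* PowerSeries Lat) (facL α f) =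
      facP (E.sum α) f := by
  unfold facP facL
  rw [map_prod]
  refine Finset.prod_congr rfl fun β _ => ?_
  rw [map_zpow, spec_fac E h]

/-- The truncated product in one variable. -/
noncomputable def Psi (Y : ℕ → Lat) (N : ℕ) : (PowerSeries Lat)ˣ :=
  ∏ m ∈ Finset.range (N + 1), facP m (Y m)

theorem spec_lam (E : Finset (Fin d)) (X : MvPowerSeries (Fin d) Lat) {n N : ℕ} (hn : n ≤ N) :
    PowerSeries.coeff n (specFun E (lam X)) =
      PowerSeries.coeff n
        ((Psi (fun m => ∑ α ∈ E.finsuppAntidiag m, coeff α X) N : (PowerSeries Lat)ˣ) :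
          PowerSeries Lat) := by
  classical
  set s : Finset (Fin d →₀ ℕ) := (Finset.range (N + 1)).biUnion (fun m => E.finsuppAntidiag m)
    with hs
  have hsE : ∀ α ∈ s, α.support ⊆ E := by
    intro α hα
    rw [hs, Finset.mem_biUnion] at hα
    obtain ⟨m, -, hm⟩ := hα
    exact (Finset.mem_finsuppAntidiag.1 hm).2
  have h1 : PowerSeries.coeff n (specFun E (lam X)) =
      PowerSeries.coeff n (spec E ((∏ α ∈ s, facL α (coeff α X) :
        (MvPowerSeries (Fin d) Lat)ˣ) : MvPowerSeries (Fin d) Lat)) := by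
    rw [spec_apply, coeff_specFun, coeff_specFun]
    refine Finset.sum_congr rfl fun γ hγ => ?_
    apply lam_eq_of_subset
    intro δ hδ
    rw [Finset.mem_finsuppAntidiag] at hγ
    rw [Finset.mem_Iic] at hδ
    rw [hs, Finset.mem_biUnion]
    have h2 : E.sum δ ≤ E.sum γ := Finset.sum_le_sum fun i _ => hδ i
    refine ⟨E.sum δ, Finset.mem_range.2 (by omega), ?_⟩
    rw [Finset.mem_finsuppAntidiag]
    exact ⟨rfl, (Finsupp.support_mono hδ).trans hγ.2⟩
  rw [h1]
  congr 1
  have e : (spec E) ((∏ α ∈ s, facL α (coeff α X) :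
      (MvPowerSeries (Fin d) Lat)ˣ) : MvPowerSeries (Fin d) Lat) =
      ((Units.map (spec E : MvPowerSeries (Fin d) Lat →* PowerSeries Lat)
        (∏ α ∈ s, facL α (coeff α X)) : (PowerSeries Lat)ˣ) : PowerSeries Lat) := rfl
  rw [e, map_prod]
  congr 1
  rw [Finset.prod_congr rfl (fun α hα => spec_facL E (hsE α hα) (coeff α X)), hs,
    Finset.prod_biUnion]
  · unfold Psi
    refine Finset.prod_congr rfl fun m _ => ?_
    rw [facP_sum]
    refine Finset.prod_congr rfl fun α hα => ?_
    rw [(Finset.mem_finsuppAntidiag.1 hα).1]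
  · intro m _ m' _ hne
    rw [Function.onFun, Finset.disjoint_left]
    intro α h1 h2
    rw [Finset.mem_finsuppAntidiag] at h1 h2
    exact hne (h1.1.symm.trans h2.1)

/-- `coeff N Ψ_N = coeff N Ψ_{N-1} - Y_N`. -/
theorem coeff_Psi_succ (Y : ℕ → Lat) (N : ℕ) :
    PowerSeries.coeff (N + 1) ((Psi Y (N + 1) : (PowerSeries Lat)ˣ) : PowerSeries Lat) =
      PowerSeries.coeff (N + 1) ((Psi Y N : (PowerSeries Lat)ˣ) : PowerSeries Lat)
        - Y (N + 1) := by
  have h0 : (Finsupp.single () (N + 1) : Unit →₀ ℕ) ≠ 0 := by simp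
  have hc : ∀ n : ℕ, PowerSeries.coeff n
      ((Psi Y N : (PowerSeries Lat)ˣ) : PowerSeries Lat) =
      MvPowerSeries.coeff (Finsupp.single () n)
        ((Psi Y N : (PowerSeries Lat)ˣ) : MvPowerSeries Unit Lat) := fun n => rfl
  have hzero : MvPowerSeries.coeff (0 : Unit →₀ ℕ)
      ((Psi Y N : (PowerSeries Lat)ˣ) : MvPowerSeries Unit Lat) = 1 := by
    clear hc h0
    unfold Psi
    induction N with
    | zero =>
      rw [Finset.prod_range_one]
      have : facP 0 (Y 0) = 1 := by
        unfold facP facL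
        rw [Finsupp.single_zero]
        exact Finset.prod_eq_one fun β _ => by rw [fac_zero, one_zpow]
      rw [this]
      simp
    | succ N ih =>
      have h0 : ¬ (Finsupp.single () (N + 1) : Unit →₀ ℕ) ≤ 0 := by
        intro h
        have := h ()
        simp at this
      rw [Finset.prod_range_succ, Units.val_mul]
      exact (coeff_mul_of_isK (isK_facL (Finsupp.single () (N + 1)) (Y (N + 1))) h0 _).trans ih
  have e : (Psi Y (N + 1) : (PowerSeries Lat)ˣ) = Psi Y N * facP (N + 1) (Y (N + 1)) := by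
    unfold Psi
    rw [Finset.prod_range_succ]
  have hm := coeff_mul_of_isK_self (isK_facL (Finsupp.single () (N + 1)) (Y (N + 1))) h0
    ((Psi Y N : (PowerSeries Lat)ˣ) : MvPowerSeries Unit Lat)
  rw [hzero, one_mul, coeff_facL _ h0] at hm
  rw [e, hc, sub_eq_add_neg]
  exact hm

end Pool.Agent.Helper84.Alt
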