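import Pool.Agent.Helper84.AltProg
import Pool.Agent.Helper84.AltSpec

set_option autoImplicit false

namespace Pool.Agent.Helper84.Alt

/-! ### Evaluation -/

section eval

variable {R : Type} [CommRing R]

/-- evaluation of a coefficient list -/
def evG {α : Type} (f : α → R) (x : R) : List α → R
  | [] => 0
  | a :: l => f a + x * evG f x l

theorem evG_add {α : Type} (f : α → R) (x : R) (add : α → α → α)
    (h : ∀ a b, f (add a b) = f a + f b) (l l' : List α) :
    evG f x (addL add l l') = evG f x l + evG f x l' := by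
  induction l generalizing l' with
  | nil => simp [addL, evG]
  | cons a l ih =>
    cases l' with
    | nil => simp [addL, evG]
    | cons b l' =>
      simp only [addL, evG, h, ih]
      ring

theorem evG_map {α : Type} (f : α → R) (x c : R) (g : α → α) (h : ∀ a, f (g a) = c * f a)
    (l : List α) : evG f x (l.map g) = c * evG f x l := by
  induction l with
  | nil => simp [evG]
  | cons a l ih =>
    simp only [List.map_cons, evG, h, ih]
    ring

theorem evG_shift {α : Type} (f : α → R) (x : R) (z : α) (hz : f z = 0) (n : ℕ) (l : List α) :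
    evG f x (List.replicate n z ++ l) = x ^ n * evG f x l := by
  induction n with
  | zero => simp
  | succ n ih =>
    rw [List.replicate_succ, List.cons_append, evG, ih, hz]
    ring

theorem evG_take {α : Type} (f : α → R) (x : R) (n : ℕ) (l : List α) :
    x ^ n ∣ evG f x l - evG f x (l.take n) := by
  induction n generalizing l with
  | zero => simp
  | succ n ih =>
    cases l with
    | nil => simp
    | cons a l =>
      obtain ⟨g, hg⟩ := ih l
      refine ⟨g, ?_⟩
      simp only [List.take_succ_cons, evG]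
      linear_combination x * hg

end eval

/-- Evaluation in `Lat`, one variable. -/
noncomputable def l1 : List ℤ → Lat := evG (fun c : ℤ => (c : Lat)) (ex (0, 1))
/-- Evaluation in `Lat`, two variables. -/
noncomputable def l2 : List (List ℤ) → Lat := evG l1 (ex (1, 0))
/-- The variable `Z`. -/
noncomputable def Zv : PowerSeries Lat := PowerSeries.X * PowerSeries.C (ex (-1, -1))
/-- Constant power series. -/
noncomputable def cl2 (L : List (List ℤ)) : PowerSeries Lat := PowerSeries.C (l2 L)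
/-- Evaluation in the power series ring. -/
noncomputable def l3 : List (List (List ℤ)) → PowerSeries Lat :=
  evG cl2 Zv

theorem l1_add (l l' : List ℤ) : l1 (add1 l l') = l1 l + l1 l' :=
  evG_add _ _ _ (fun a b => by push_cast; rfl) l l'

theorem l2_add (l l' : List (List ℤ)) : l2 (add2 l l') = l2 l + l2 l' :=
  evG_add _ _ _ l1_add l l'

theorem l3_add (l l' : List (List (List ℤ))) : l3 (add3 l l') = l3 l + l3 l' :=
  evG_add _ _ _ (fun a b => by rw [cl2, l2_add, map_add]; rfl) l l'

theorem l1_smul (c : ℤ) (l : List ℤ) : l1 (smul1 c l) = (c : Lat) * l1 l :=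
  evG_map _ _ _ _ (fun a => by push_cast; rfl) l

theorem l2_smul (c : ℤ) (l : List (List ℤ)) : l2 (smul2 c l) = (c : Lat) * l2 l :=
  evG_map _ _ _ _ (l1_smul c) l

theorem l3_smul (c : ℤ) (l : List (List (List ℤ))) :
    l3 (smul3 c l) = (c : PowerSeries Lat) * l3 l :=
  evG_map _ _ _ _ (fun a => by rw [cl2, l2_smul, map_mul, map_intCast]; rfl) l

theorem l1_shift (q : ℕ) (l : List ℤ) : l1 (shift1 q l) = ex (0, 1) ^ q * l1 l :=
  evG_shift _ _ _ (by simp) q l

theorem l2_shift (p q : ℕ) (l : List (List ℤ)) :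
    l2 (shift2 p q l) = ex (1, 0) ^ p * (ex (0, 1) ^ q * l2 l) := by
  unfold shift2
  have h : l1 [] = 0 := rfl
  rw [l2, evG_shift _ _ _ h, evG_map _ _ _ _ (l1_shift q)]

theorem l3_shift (n p q : ℕ) (l : List (List (List ℤ))) :
    l3 (shift3 n p q l) =
      (Zv ^ n * PowerSeries.C (ex (1, 0) ^ p * ex (0, 1) ^ q)) * l3 l := by
  unfold shift3
  have h : cl2 [] = 0 := by
    have : l2 [] = 0 := rfl
    rw [cl2, this, map_zero]
  have hm : ∀ a, cl2 (shift2 p q a) =
      PowerSeries.C (ex (1, 0) ^ p * ex (0, 1) ^ q) * cl2 a := by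
    intro a
    rw [cl2, cl2, l2_shift, ← map_mul, mul_assoc]
  rw [l3, evG_shift _ _ _ h, evG_map _ _ _ _ hm, mul_assoc]

theorem ex_mul (β β' : ℤ × ℤ) : ex β * ex β' = ex (β + β') := by
  rw [ex, ex, ex, AddMonoidAlgebra.single_mul_single, one_mul]

theorem ex_pow (β : ℤ × ℤ) (n : ℕ) : ex β ^ n = ex (n • β) := by
  rw [ex, ex, AddMonoidAlgebra.single_pow, one_pow]

/-- The monomial `Z^n T1^p T2^q`. -/
theorem Zv_monomial (n p q : ℕ) :
    Zv ^ n * PowerSeries.C (ex (1, 0) ^ p * ex (0, 1) ^ q) =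
      PowerSeries.monomial n (ex ((p : ℤ) - n, (q : ℤ) - n)) := by
  rw [Zv, mul_pow, ← map_pow, mul_assoc, ← map_mul, ex_pow, ex_pow, ex_pow, ex_mul, ex_mul,
    PowerSeries.X_pow_eq, ← PowerSeries.monomial_zero_eq_C_apply,
    PowerSeries.monomial_mul_monomial, add_zero, one_mul]
  congr 2
  ext <;> simp <;> ring

/-! ### Correctness of the multiplication -/

theorem Zv_pow_dvd {N : ℕ} {f : PowerSeries Lat} (h : Zv ^ N ∣ f) : PowerSeries.X ^ N ∣ f := by
  refine dvd_trans ?_ h
  rw [Zv, mul_pow]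
  exact Dvd.intro _ rfl

theorem bin_eq (c t : ℕ) : bin c t = (-1) ^ t * (Nat.choose c t : ℤ) := by
  rw [bin, Nat.choose_eq_descFactorial_div_factorial]

/-- The binomial sum. -/
noncomputable def bsum (c : ℕ) (x : PowerSeries Lat) : ℕ → ℕ → PowerSeries Lat
  | 0, _ => 0
  | r + 1, t => (bin c t : PowerSeries Lat) + x * bsum c x r (t + 1)

theorem aux1 {R : Type} [CommRing R] (X x l a1 a2 a3 a4 g1 g2 : R) (h2 : a2 - a3 * l = X * g2)
    (h1 : a4 * l + x * a2 - a1 = X * g1) : a1 - (a4 + x * a3) * l = X * (x * g2 - g1) := by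
  linear_combination x * h2 - h1

theorem aux2 {R : Type} [CommRing R] (X l f b c y g₁ g₂ g₃ : R) (h1 : y - b * l = X * g₁)
    (h2 : l - f = X * g₂) (h3 : b - c = X * g₃) :
    y - c * f = X * (g₁ + g₃ * l + c * g₂) := by
  linear_combination h1 + l * h3 + c * h2

theorem take_spec (N : ℕ) (L : List (List (List ℤ))) :
    ∃ g : PowerSeries Lat, l3 L - l3 (L.take N) = PowerSeries.X ^ N * g :=
  Zv_pow_dvd (evG_take cl2 Zv N L)

theorem horner_spec (N n p q c : ℕ) (L : List (List (List ℤ))) (r t : ℕ) :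
    ∃ g : PowerSeries Lat, l3 (horner N n p q c L r t) -
      bsum c (Zv ^ n * PowerSeries.C (ex (1, 0) ^ p * ex (0, 1) ^ q)) r t * l3 L =
        PowerSeries.X ^ N * g := by
  induction r generalizing t with
  | zero =>
    have : l3 (horner N n p q c L 0 t) = 0 := rfl
    rw [this, bsum]
    exact ⟨0, by simp⟩
  | succ r ih =>
    rw [horner, bsum]
    obtain ⟨g₁, h1⟩ := take_spec N
      (add3 (smul3 (bin c t) L) (shift3 n p q (horner N n p q c L r (t + 1))))
    obtain ⟨g₂, h2⟩ := ih (t + 1)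
    rw [l3_add, l3_smul, l3_shift] at h1
    exact ⟨_, aux1 _ _ _ _ _ _ _ _ _ h2 h1⟩

theorem bsum_eq (c : ℕ) (x : PowerSeries Lat) (r t : ℕ) :
    bsum c x r t = ∑ s ∈ Finset.range r, (bin c (t + s) : PowerSeries Lat) * x ^ s := by
  induction r generalizing t with
  | zero => simp [bsum]
  | succ r ih =>
    rw [bsum, ih, Finset.sum_range_succ', Finset.mul_sum, pow_zero, mul_one, add_zero, add_comm]
    refine congrArg (fun y => y + (bin c t : PowerSeries Lat)) (Finset.sum_congr rfl fun s _ => ?_)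
    have e : t + 1 + s = t + (s + 1) := by ring
    rw [e, pow_succ, mul_comm (x ^ s) x, ← mul_assoc, ← mul_assoc, mul_comm x]

theorem bsum_dvd (c : ℕ) (x : PowerSeries Lat) (r : ℕ) :
    x ^ r ∣ bsum c x r 0 - (1 - x) ^ c := by
  have h1 : (1 - x) ^ c =
      ∑ s ∈ Finset.range (r + (c + 1)), (bin c (0 + s) : PowerSeries Lat) * x ^ s := by
    have h2 : (1 - x) ^ c =
        ∑ s ∈ Finset.range (c + 1), (bin c (0 + s) : PowerSeries Lat) * x ^ s := by
      rw [sub_eq_neg_add, add_pow]
      refine Finset.sum_congr rfl fun s _ => ?_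
      rw [zero_add, bin_eq, one_pow, neg_pow]
      push_cast
      ring
    rw [h2]
    refine Finset.sum_subset ?_ ?_
    · intro s hs
      rw [Finset.mem_range] at *
      omega
    · intro s _ hs
      rw [Finset.mem_range] at hs
      rw [bin_eq, Nat.choose_eq_zero_of_lt (by omega)]
      simp
  rw [h1, bsum_eq, ← Finset.sum_range_add_sum_Ico _ (Nat.le_add_right r (c + 1))]
  rw [sub_add_cancel_left, dvd_neg]
  refine Finset.dvd_sum fun s hs => ?_
  rw [Finset.mem_Ico] at hs
  exact dvd_mul_of_dvd_right (pow_dvd_pow x hs.1) _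

/-- The representation relation. -/
def Rep (N : ℕ) (L : List (List (List ℤ))) (f : PowerSeries Lat) : Prop :=
  PowerSeries.X ^ N ∣ l3 L - f

theorem mulFac_spec {N n : ℕ} (hn : 1 ≤ n) (p q c : ℕ) {L : List (List (List ℤ))}
    {f : PowerSeries Lat} (h : Rep N L f) :
    Rep N (mulFac N n p q c L)
      ((1 - PowerSeries.monomial n (ex ((p : ℤ) - n, (q : ℤ) - n))) ^ c * f) := by
  unfold Rep at *
  rw [← Zv_monomial]
  set x := Zv ^ n * PowerSeries.C (ex (1, 0) ^ p * ex (0, 1) ^ q) with hx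
  obtain ⟨g₁, h1⟩ := horner_spec N n p q c L ((N - 1) / n + 1) 0
  obtain ⟨g₂, h2⟩ := h
  have h3 : PowerSeries.X ^ N ∣ bsum c x ((N - 1) / n + 1) 0 - (1 - x) ^ c := by
    refine dvd_trans ?_ (bsum_dvd c x _)
    rw [hx, Zv, mul_pow, mul_pow, mul_pow, ← pow_mul, mul_assoc]
    refine dvd_trans ?_ (Dvd.intro _ rfl)
    apply pow_dvd_pow
    rcases Nat.eq_zero_or_pos N with h0 | h0
    · omega
    · have := Nat.lt_div_mul_add (a := N - 1) (b := n) (by omega)
      have e : n * ((N - 1) / n + 1) = (N - 1) / n * n + n := by ring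
      omega
  obtain ⟨g₃, h3⟩ := h3
  rw [← hx] at h1
  change l3 (mulFac N n p q c L) - _ = _ at h1
  refine ⟨g₁ + g₃ * l3 L + (1 - x) ^ c * g₂, ?_⟩
  exact aux2 _ _ _ _ _ _ _ _ _ h1 h2 h3

end Pool.Agent.Helper84.Alt
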