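import Mathlib

set_option autoImplicit false

namespace Pool.Agent.Helper84.Alt

/-! ### A small program with truncated power series as nested lists -/

/-- generic addition of coefficient lists -/
def addL {α : Type} (add : α → α → α) : List α → List α → List α
  | [], l => l
  | l, [] => l
  | a :: l, b :: l' => add a b :: addL add l l'

def add1 : List ℤ → List ℤ → List ℤ := addL (fun a b => a + b)
def add2 : List (List ℤ) → List (List ℤ) → List (List ℤ) := addL add1
def add3 : List (List (List ℤ)) → List (List (List ℤ)) → List (List (List ℤ)) := addL add2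

def smul1 (c : ℤ) (l : List ℤ) : List ℤ := l.map (fun a => c * a)
def smul2 (c : ℤ) (l : List (List ℤ)) : List (List ℤ) := l.map (smul1 c)
def smul3 (c : ℤ) (l : List (List (List ℤ))) : List (List (List ℤ)) := l.map (smul2 c)

def shift1 (q : ℕ) (l : List ℤ) : List ℤ := List.replicate q 0 ++ l
def shift2 (p q : ℕ) (l : List (List ℤ)) : List (List ℤ) :=
  List.replicate p [] ++ l.map (shift1 q)
def shift3 (n p q : ℕ) (l : List (List (List ℤ))) : List (List (List ℤ)) :=
  List.replicate n [] ++ l.map (shift2 p q)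

/-- binomial coefficient with sign -/
def bin (c t : ℕ) : ℤ := (-1) ^ t * ((Nat.descFactorial c t / Nat.factorial t : ℕ) : ℤ)

/-- multiply by `∑_{s < r} bin c (t + s) x^s`, where `x` is `Z^n T1^p T2^q`, mod `Z^N` -/
def horner (N n p q c : ℕ) (L : List (List (List ℤ))) : ℕ → ℕ → List (List (List ℤ))
  | 0, _ => []
  | r + 1, t => (add3 (smul3 (bin c t) L) (shift3 n p q (horner N n p q c L r (t + 1)))).take N

/-- multiply by `(1 - Z^n T1^p T2^q)^c` mod `Z^N` -/
def mulFac (N n p q c : ℕ) (L : List (List (List ℤ))) : List (List (List ℤ)) :=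
  horner N n p q c L ((N - 1) / n + 1) 0

def step (N n A C : ℕ) (L : List (List (List ℤ))) : List (List (List ℤ)) :=
  mulFac N n (n+1) n A <| mulFac N n n (n+1) A <| mulFac N n (n+1) (n+1) A <|
  mulFac N n (n-1) n A <| mulFac N n n (n-1) A <| mulFac N n (n-1) (n-1) A <|
  mulFac N n n n C L

def get (L : List (List (List ℤ))) (m p q : ℕ) : ℤ :=
  ((L.getD m []).getD p []).getD q 0

/-- multiplicity functional at weight `(i, j)` in degree `m` -/
def rd (L : List (List (List ℤ))) (m i j : ℕ) : ℤ :=
  get L m (i+m) (j+m) - get L m (i+1+m) (j+m) - get L m (i+m) (j+1+m)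
   + get L m (i+2+m) (j+1+m) + get L m (i+1+m) (j+2+m) - get L m (i+2+m) (j+2+m)

/-- The recursion: after `n` steps, the list of `Ψ_n` mod `Z^N` and the `(A_m, B_m)`, `m ≤ n`. -/
def run (N : ℕ) : ℕ → List (List (List ℤ)) × List (ℤ × ℤ)
  | 0 => ([[[1]]], [])
  | n + 1 =>
    let s := run N n
    let A := rd s.1 (n+1) 1 1 + (if n = 0 then 3 else 0)
    let B := rd s.1 (n+1) 0 0
    (step N (n+1) A.toNat (2*A+B).toNat s.1, (A, B) :: s.2)

set_option maxRecDepth 100000 in
theorem run_eval : (run 11 10).2 = [(56961, 53586), (19818, 18474), (6891, 6276), (2373, 2094),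
    (804, 670), (267, 210), (87, 60), (28, 16), (9, 3), (3, 0)] := by decide +kernel

end Pool.Agent.Helper84.Alt
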