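import Pool.Agent.Helper84.AltNum

set_option autoImplicit false

namespace Pool.Agent.Helper84.Alt

theorem facL_zsmul {σ : Type} [DecidableEq σ] (α : σ →₀ ℕ) (c : ℤ) (f : Lat) :
    facL α (c • f) = facL α f ^ c := by
  let φ : Multiplicative Lat →* (MvPowerSeries σ Lat)ˣ :=
    { toFun := fun x => facL α x.toAdd
      map_one' := facL_zero α
      map_mul' := fun x y => facL_add α _ _ }
  exact map_zpow φ (Multiplicative.ofAdd f) c

theorem facL_smul_ex {σ : Type} [DecidableEq σ] (α : σ →₀ ℕ) (c : ℤ) (β : ℤ × ℤ) :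
    facL α (c • ex β) = fac α β ^ c := by
  rw [facL_zsmul, ex, facL_single, zpow_one]

theorem comb_expand (A B : ℤ) : A • adj + B • (1 : Lat) =
    A • ex (1, 0) + (A • ex (0, 1) + (A • ex (1, 1) + (A • ex (-1, 0) + (A • ex (0, -1) +
      (A • ex (-1, -1) + (2 * A + B) • ex (0, 0)))))) := by
  have h1 : (1 : Lat) = ex (0, 0) := rfl
  have h2 : (2 : Lat) = (2 : ℤ) • ex (0, 0) := by
    rw [← h1, two_smul]; norm_num
  rw [adj, h2, h1]
  module

theorem fac_val' {n : ℕ} (hn : 1 ≤ n) (β : ℤ × ℤ) :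
    ((fac (Finsupp.single () n) β : (MvPowerSeries Unit Lat)ˣ) : PowerSeries Lat) =
      1 - PowerSeries.monomial n (ex β) := by
  have h0 : (Finsupp.single () n : Unit →₀ ℕ) ≠ 0 := by
    intro h
    rw [Finsupp.single_eq_zero] at h
    omega
  rw [fac_val h0]
  rfl

theorem step_spec {N n : ℕ} (hn : 1 ≤ n) {A B : ℤ} (hA : 0 ≤ A) (hC : 0 ≤ 2 * A + B)
    {L : List (List (List ℤ))} {f : PowerSeries Lat} (h : Rep N L f) :
    Rep N (step N n A.toNat (2 * A + B).toNat L)
      (((facP n (A • adj + B • (1 : Lat)) : (PowerSeries Lat)ˣ) : PowerSeries Lat) * f) := by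
  obtain ⟨a, rfl⟩ := Int.eq_ofNat_of_zero_le hA
  obtain ⟨c, hc⟩ := Int.eq_ofNat_of_zero_le hC
  have e : ((facP n ((a : ℤ) • adj + B • (1 : Lat)) : (PowerSeries Lat)ˣ) : PowerSeries Lat) =
      (1 - PowerSeries.monomial n (ex (1, 0))) ^ a *
      ((1 - PowerSeries.monomial n (ex (0, 1))) ^ a *
      ((1 - PowerSeries.monomial n (ex (1, 1))) ^ a *
      ((1 - PowerSeries.monomial n (ex (-1, 0))) ^ a *
      ((1 - PowerSeries.monomial n (ex (0, -1))) ^ a *
      ((1 - PowerSeries.monomial n (ex (-1, -1))) ^ a *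
      (1 - PowerSeries.monomial n (ex (0, 0))) ^ c))))) := by
    rw [comb_expand, hc]
    unfold facP
    simp only [facL_add, facL_smul_ex, zpow_natCast, Units.val_mul, Units.val_pow_eq_pow_val,
      Units.val_mul]
    simp only [fac_val' hn]
  rw [e, hc]
  simp only [mul_assoc, Int.toNat_natCast]
  unfold step
  have e1 : ((n + 1 : ℕ) : ℤ) - n = 1 := by push_cast; ring
  have e2 : ((n : ℕ) : ℤ) - n = 0 := by ring
  have e3 : ((n - 1 : ℕ) : ℤ) - n = -1 := by
    rw [Nat.cast_sub hn]; push_cast; ring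
  have h1 := mulFac_spec hn n n c h
  have h2 := mulFac_spec hn (n - 1) (n - 1) a h1
  have h3 := mulFac_spec hn n (n - 1) a h2
  have h4 := mulFac_spec hn (n - 1) n a h3
  have h5 := mulFac_spec hn (n + 1) (n + 1) a h4
  have h6 := mulFac_spec hn n (n + 1) a h5
  have h7 := mulFac_spec hn (n + 1) n a h6
  rw [e1, e2, e3] at h7
  exact h7

/-! ### Reading coefficients -/

theorem l1_cons (a : ℤ) (l : List ℤ) : l1 (a :: l) = a • ex (0, 0) + l1 l * ex (0, 1) := by
  have e : l1 (a :: l) = (a : Lat) + ex (0, 1) * l1 l := rfl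
  have ha : (a : Lat) = a • ex (0, 0) := by
    have : (1 : Lat) = ex (0, 0) := rfl
    rw [← this]; simp
  rw [e, ha, mul_comm]

theorem l2_cons (a : List ℤ) (L : List (List ℤ)) : l2 (a :: L) = l1 a + l2 L * ex (1, 0) := by
  have e : l2 (a :: L) = l1 a + ex (1, 0) * l2 L := rfl
  rw [e, mul_comm]

theorem l1_coeff_cons (a : ℤ) (l : List ℤ) (u v : ℤ) :
    (l1 (a :: l)).coeff (u, v) = a * (if (0, 0) = (u, v) then 1 else 0) +
      (l1 l).coeff (u, v - 1) := by
  rw [l1_cons, AddMonoidAlgebra.coeff_add, Finsupp.add_apply, coeff_mul_ex,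
      AddMonoidAlgebra.coeff_smul, Finsupp.smul_apply, coeff_ex, Prod.mk_sub_mk, sub_zero,
      smul_eq_mul]

theorem l1_coeff_ne (l : List ℤ) {u : ℤ} (hu : u ≠ 0) (v : ℤ) : (l1 l).coeff (u, v) = 0 := by
  induction l generalizing v with
  | nil => simp [l1, evG]
  | cons a l ih =>
    rw [l1_coeff_cons, ih, if_neg]
    · simp
    · intro h
      exact hu (congrArg Prod.fst h).symm

theorem l1_coeff_neg (l : List ℤ) (u : ℤ) {v : ℤ} (hv : v < 0) : (l1 l).coeff (u, v) = 0 := by
  induction l generalizing v with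
  | nil => simp [l1, evG]
  | cons a l ih =>
    rw [l1_coeff_cons, ih (by omega), if_neg]
    · simp
    · intro h
      have := congrArg Prod.snd h
      simp at this
      omega

theorem l1_coeff (l : List ℤ) (q : ℕ) : (l1 l).coeff (0, (q : ℤ)) = l.getD q 0 := by
  induction l generalizing q with
  | nil => simp [l1, evG]
  | cons a l ih =>
    rw [l1_coeff_cons]
    cases q with
    | zero =>
      rw [l1_coeff_neg _ _ (by simp)]
      simp
    | succ q =>
      have h1 : ((q + 1 : ℕ) : ℤ) - 1 = (q : ℤ) := by push_cast; ring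
      rw [h1, ih, if_neg]
      · simp
      · intro h
        have := congrArg Prod.snd h
        simp at this
        omega

theorem l2_coeff_cons (a : List ℤ) (L : List (List ℤ)) (u v : ℤ) :
    (l2 (a :: L)).coeff (u, v) = (l1 a).coeff (u, v) + (l2 L).coeff (u - 1, v) := by
  rw [l2_cons, AddMonoidAlgebra.coeff_add, Finsupp.add_apply, coeff_mul_ex, Prod.mk_sub_mk,
    sub_zero]

theorem l2_coeff_neg (L : List (List ℤ)) {u : ℤ} (hu : u < 0) (v : ℤ) :
    (l2 L).coeff (u, v) = 0 := by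
  induction L generalizing u with
  | nil => simp [l2, evG]
  | cons a L ih => rw [l2_coeff_cons, ih (by omega), l1_coeff_ne _ (by omega), add_zero]

theorem l2_coeff (L : List (List ℤ)) (p q : ℕ) :
    (l2 L).coeff ((p : ℤ), (q : ℤ)) = (L.getD p []).getD q 0 := by
  induction L generalizing p with
  | nil => simp [l2, evG]
  | cons a L ih =>
    rw [l2_coeff_cons]
    cases p with
    | zero =>
      rw [l2_coeff_neg _ (by simp)]
      have := l1_coeff a q
      simpa using this
    | succ p =>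
      have h1 : ((p + 1 : ℕ) : ℤ) - 1 = (p : ℤ) := by push_cast; ring
      rw [h1, ih, l1_coeff_ne _ (by omega)]
      simp

theorem l3_coeff (M : List (List (List ℤ))) (m : ℕ) :
    PowerSeries.coeff m (l3 M) = l2 (M.getD m []) * ex (-(m : ℤ), -(m : ℤ)) := by
  induction M generalizing m with
  | nil => simp [l3, evG, l2]
  | cons a M ih =>
    have e : l3 (a :: M) = PowerSeries.C (l2 a) + PowerSeries.C (ex (-1, -1)) *
        (PowerSeries.X * l3 M) := by
      have : l3 (a :: M) = cl2 a + Zv * l3 M := rfl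
      rw [this, Zv, cl2]
      ring
    rw [e, map_add, PowerSeries.coeff_C_mul]
    cases m with
    | zero =>
      rw [PowerSeries.coeff_zero_X_mul]
      have : ex (-((0 : ℕ) : ℤ), -((0 : ℕ) : ℤ)) = 1 := by
        simp only [Nat.cast_zero, neg_zero]
        rfl
      rw [this]
      simp
    | succ m =>
      rw [PowerSeries.coeff_succ_X_mul, ih, PowerSeries.coeff_C, if_neg (by omega), zero_add,
        mul_left_comm, ex_mul]
      simp only [List.getD_cons_succ, Prod.mk_add_mk]
      congr 2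
      ext <;> push_cast <;> ring

theorem get_spec (M : List (List (List ℤ))) (m i j : ℕ) :
    (PowerSeries.coeff m (l3 M)).coeff ((i : ℤ), (j : ℤ)) = get M m (i + m) (j + m) := by
  have e : (((i : ℤ), (j : ℤ)) : ℤ × ℤ) - (-(m : ℤ), -(m : ℤ)) =
      (((i + m : ℕ) : ℤ), ((j + m : ℕ) : ℤ)) := by
    rw [Prod.mk_sub_mk]
    ext <;> push_cast <;> ring
  rw [l3_coeff, coeff_mul_ex, e, l2_coeff]
  rfl

theorem rd_spec (M : List (List (List ℤ))) (m i j : ℕ) :
    mult ((i : ℤ), (j : ℤ)) (PowerSeries.coeff m (l3 M)) = rd M m i j := by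
  have h : ∀ a b : ℕ, (((i : ℤ), (j : ℤ)) : ℤ × ℤ) + ((a : ℤ), (b : ℤ)) =
      (((i + a : ℕ) : ℤ), ((j + b : ℕ) : ℤ)) := by
    intro a b
    rw [Prod.mk_add_mk]
    ext <;> push_cast <;> ring
  have h10 := h 1 0
  have h01 := h 0 1
  have h21 := h 2 1
  have h12 := h 1 2
  have h22 := h 2 2
  simp only [Nat.cast_one, Nat.cast_zero, Nat.cast_ofNat] at h10 h01 h21 h12 h22
  rw [mult_eq, h10, h01, h21, h12, h22]
  simp only [get_spec]
  rfl

theorem coeff_of_rep {N : ℕ} {L : List (List (List ℤ))} {f : PowerSeries Lat} (h : Rep N L f)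
    {m : ℕ} (hm : m < N) : PowerSeries.coeff m f = PowerSeries.coeff m (l3 L) := by
  have := PowerSeries.X_pow_dvd_iff.1 h m hm
  rw [map_sub, sub_eq_zero] at this
  exact this.symm

end Pool.Agent.Helper84.Alt
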