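import Pool.Agent.Helper84.AltExist

set_option autoImplicit false
set_option linter.unusedSectionVars false

namespace Pool.Agent.Helper84.Alt

open MvPowerSeries

variable {d : ℕ}

/-- Relabelling of the variables. -/
noncomputable def rl (τ : Equiv.Perm (Fin d)) :
    MvPowerSeries (Fin d) Lat →ₐ[Lat] MvPowerSeries (Fin d) Lat :=
  MvPowerSeries.rename τ.symm.toEmbedding

theorem coeff_rl (τ : Equiv.Perm (Fin d)) (f : MvPowerSeries (Fin d) Lat) (δ : Fin d →₀ ℕ) :
    coeff δ (rl τ f) = coeff (δ.mapDomain τ) f := by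
  have h := coeff_embDomain_rename (R := Lat) τ.symm.toEmbedding f (δ.mapDomain τ)
  have e : Finsupp.embDomain τ.symm.toEmbedding (δ.mapDomain τ) = δ := by
    rw [Finsupp.embDomain_eq_mapDomain, ← Finsupp.mapDomain_comp]
    have : (⇑τ.symm.toEmbedding ∘ ⇑τ) = id := by
      funext x; simp
    rw [this, Finsupp.mapDomain_id]
  rw [e] at h
  exact h

theorem rl_fac (τ : Equiv.Perm (Fin d)) (α : Fin d →₀ ℕ) (β : ℤ × ℤ) :
    Units.map (rl τ : MvPowerSeries (Fin d) Lat →* MvPowerSeries (Fin d) Lat) (fac α β) =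
      fac (α.mapDomain τ.symm) β := by
  by_cases h : α = 0
  · subst h
    rw [fac_zero, Finsupp.mapDomain_zero, fac_zero, map_one]
  · have h' : α.mapDomain τ.symm ≠ 0 := by
      intro h0
      apply h
      have := congrArg (Finsupp.mapDomain τ) h0
      rw [← Finsupp.mapDomain_comp] at this
      simpa using this
    ext1
    rw [Units.coe_map, fac_val h']
    simp only [MonoidHom.coe_coe]
    rw [fac_val h, map_sub, map_one]
    congr 1
    unfold rl
    rw [rename_monomial]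
    rfl

theorem rl_facL (τ : Equiv.Perm (Fin d)) (α : Fin d →₀ ℕ) (f : Lat) :
    Units.map (rl τ : MvPowerSeries (Fin d) Lat →* MvPowerSeries (Fin d) Lat) (facL α f) =
      facL (α.mapDomain τ.symm) f := by
  unfold facL
  rw [map_prod]
  refine Finset.prod_congr rfl fun β _ => ?_
  rw [map_zpow, rl_fac]

theorem lam_rl (τ : Equiv.Perm (Fin d)) (X : MvPowerSeries (Fin d) Lat) (γ : Fin d →₀ ℕ) :
    coeff γ (lam (rl τ X)) = coeff (γ.mapDomain τ) (lam X) := by
  rw [lam_eq, lam_eq, ← coeff_rl]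
  congr 1
  have e : (rl τ) ((∏ α ∈ Finset.Iic (γ.mapDomain τ), facL α (coeff α X) :
      (MvPowerSeries (Fin d) Lat)ˣ) : MvPowerSeries (Fin d) Lat) =
      ((Units.map (rl τ : MvPowerSeries (Fin d) Lat →* MvPowerSeries (Fin d) Lat)
        (∏ α ∈ Finset.Iic (γ.mapDomain τ), facL α (coeff α X)) :
        (MvPowerSeries (Fin d) Lat)ˣ) : MvPowerSeries (Fin d) Lat) := rfl
  rw [e, map_prod]
  congr 1
  have hinv : ∀ δ : Fin d →₀ ℕ, (δ.mapDomain τ).mapDomain τ.symm = δ := by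
    intro δ
    rw [← Finsupp.mapDomain_comp]
    simp
  have hinv' : ∀ δ : Fin d →₀ ℕ, (δ.mapDomain τ.symm).mapDomain τ = δ := by
    intro δ
    rw [← Finsupp.mapDomain_comp]
    simp
  have hmono : ∀ (ρ : Equiv.Perm (Fin d)) (δ ε : Fin d →₀ ℕ), δ ≤ ε →
      δ.mapDomain ρ ≤ ε.mapDomain ρ := by
    intro ρ δ ε h i
    have h1 := Finsupp.mapDomain_apply ρ.injective δ (ρ.symm i)
    have h2 := Finsupp.mapDomain_apply ρ.injective ε (ρ.symm i)
    rw [Equiv.apply_symm_apply] at h1 h2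
    rw [h1, h2]
    exact h _
  refine Finset.prod_nbij' (fun δ => δ.mapDomain τ) (fun δ => δ.mapDomain τ.symm) ?_ ?_ ?_ ?_ ?_
  · intro δ hδ
    rw [Finset.mem_Iic] at *
    exact hmono τ _ _ hδ
  · intro δ hδ
    rw [Finset.mem_Iic] at *
    have := hmono τ.symm _ _ hδ
    rwa [hinv] at this
  · intro δ _; exact hinv δ
  · intro δ _; exact hinv' δ
  · intro δ _
    rw [rl_facL, hinv, coeff_rl]

/-- Relabelling of integral power series. -/
noncomputable def rlZ (τ : Equiv.Perm (Fin d)) (a : MvPowerSeries (Fin d) ℤ) :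
    MvPowerSeries (Fin d) ℤ := fun α => coeff (α.mapDomain τ) a

theorem coeff_rlZ (τ : Equiv.Perm (Fin d)) (a : MvPowerSeries (Fin d) ℤ) (α : Fin d →₀ ℕ) :
    coeff α (rlZ τ a) = coeff (α.mapDomain τ) a := rfl

theorem comb_rlZ (τ : Equiv.Perm (Fin d)) (a b : MvPowerSeries (Fin d) ℤ) :
    comb (rlZ τ a) (rlZ τ b) = rl τ (comb a b) := by
  ext1 α
  rw [coeff_rl, coeff_comb, coeff_comb, coeff_rlZ, coeff_rlZ]

theorem Vc_symm (τ : Equiv.Perm (Fin d)) (α : Fin d →₀ ℕ) :
    coeff (α.mapDomain τ) (Vc d) = coeff α (Vc d) := by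
  unfold Vc
  rw [map_sum, map_sum]
  refine Fintype.sum_equiv τ.symm _ _ fun i => ?_
  rw [coeff_X, coeff_X]
  have : α.mapDomain τ = Finsupp.single i 1 ↔ α = Finsupp.single (τ.symm i) 1 := by
    constructor
    · intro h
      have := congrArg (Finsupp.mapDomain τ.symm) h
      rw [← Finsupp.mapDomain_comp, Finsupp.mapDomain_single] at this
      simpa using this
    · intro h
      rw [h, Finsupp.mapDomain_single]
      simp
  simp only [this]

theorem isPair0_rlZ (τ : Equiv.Perm (Fin d)) {a b : MvPowerSeries (Fin d) ℤ} (h : IsPair0 a b) :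
    IsPair0 (rlZ τ a) (rlZ τ b) := by
  obtain ⟨h1, h2, h3, h4⟩ := h
  refine ⟨?_, ?_, ?_, ?_⟩
  · rw [← coeff_zero_eq_constantCoeff_apply, coeff_rlZ, Finsupp.mapDomain_zero,
      coeff_zero_eq_constantCoeff_apply, h1]
  · rw [← coeff_zero_eq_constantCoeff_apply, coeff_rlZ, Finsupp.mapDomain_zero,
      coeff_zero_eq_constantCoeff_apply, h2]
  · intro γ
    rw [comb_rlZ, lam_rl, h3]
    by_cases hγ : γ = 0
    · subst hγ; simp
    · have h' : γ.mapDomain τ ≠ 0 := by
        intro h0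
        apply hγ
        have := congrArg (Finsupp.mapDomain τ.symm) h0
        rw [← Finsupp.mapDomain_comp] at this
        simpa using this
      rw [coeff_one, coeff_one, if_neg hγ, if_neg h']
  · intro γ
    rw [comb_rlZ, lam_rl, h4, Vc_symm]

theorem isPair_iff (a b : MvPowerSeries (Fin d) ℤ) : IsPair a b ↔ IsPair0 a b := by
  constructor
  · rintro ⟨⟨h1, -⟩, ⟨h2, -⟩, h3, h4⟩
    exact ⟨h1, h2, h3, h4⟩
  · intro h
    have hs : ∀ τ : Equiv.Perm (Fin d), rlZ τ a = a ∧ rlZ τ b = b := fun τ =>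
      isPair0_unique h (isPair0_rlZ τ h)
    obtain ⟨h1, h2, h3, h4⟩ := h
    refine ⟨⟨h1, fun τ α => ?_⟩, ⟨h2, fun τ α => ?_⟩, h3, h4⟩
    · rw [← coeff_rlZ, (hs τ).1]
    · rw [← coeff_rlZ, (hs τ).2]

theorem existsUnique_pair (d : ℕ) : ∃ a b : MvPowerSeries (Fin d) ℤ, IsPair a b ∧
    ∀ a' b' : MvPowerSeries (Fin d) ℤ, IsPair a' b' → a' = a ∧ b' = b := by
  obtain ⟨a, b, h⟩ := exists_isPair0 d
  exact ⟨a, b, (isPair_iff a b).2 h, fun a' b' h' => isPair0_unique h ((isPair_iff a' b').1 h')⟩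

end Pool.Agent.Helper84.Alt
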